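import Mathlib

/-!
# Two-variable classes of countable structures: the case of perfectly many types

A structure is a map `y : V → V → D`; the class is given by conditions on the labels of the pairs
of elements and by the existence of witnesses.
-/

set_option autoImplicit false

open Set

namespace Pool.Agent.H71.TV

variable {D ι : Type}

/-- conditions on pairs, and demands -/
structure Cls (D ι : Type) where
  L1 : Set D
  L : Set (D × D × (D × D))
  Dm : ι → Set D
  W : ι → Set (D × D)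
  sym : ∀ p q z, (p, q, z) ∈ L → (q, p, z.swap) ∈ L

/-- the pair of labels -/
def ta {V : Type} (y : V → V → D) (a b : V) : D × D := (y a b, y b a)

theorem ta_swap {V : Type} (y : V → V → D) (a b : V) : (ta y a b).swap = ta y b a := rfl

/-- the structures in the class -/
structure Mem {V : Type} (K : Cls D ι) (y : V → V → D) : Prop where
  diag : ∀ a, y a a ∈ K.L1
  pair : ∀ a b, a ≠ b → (y a a, y b b, ta y a b) ∈ K.L
  dem : ∀ i a, y a a ∈ K.Dm i → ∃ b, b ≠ a ∧ ta y a b ∈ K.W i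

/-- isomorphic structures -/
def Iso {V V' : Type} (y : V → V → D) (y' : V' → V' → D) : Prop :=
  ∃ g : V ≃ V', ∀ a b, y' (g a) (g b) = y a b

/-- labels of elements which may be repeated -/
def NK (K : Cls D ι) (p : D) : Prop := ∃ z, (p, p, z) ∈ K.L

theorem Mem.congr {V V' : Type} {K : Cls D ι} {y : V → V → D} {y' : V' → V' → D}
    (h : Mem K y) (g : V ≃ V') (hg : ∀ a b, y' (g a) (g b) = y a b) : Mem K y' := by
  have hg' : ∀ a b, y' a b = y (g.symm a) (g.symm b) := by
    intro a b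
    rw [← hg, Equiv.apply_symm_apply, Equiv.apply_symm_apply]
  refine ⟨fun a => ?_, fun a b hab => ?_, fun i a ha => ?_⟩
  · rw [hg']
    exact h.diag _
  · have h1 : ta y' a b = ta y (g.symm a) (g.symm b) := by
      unfold ta
      rw [hg', hg']
    rw [hg' a a, hg' b b, h1]
    exact h.pair _ _ fun e => hab (g.symm.injective e)
  · rw [hg'] at ha
    obtain ⟨b, hb, hb'⟩ := h.dem i _ ha
    refine ⟨g b, fun e => hb ?_, ?_⟩
    · rw [← e, Equiv.symm_apply_apply]
    · have h1 : ta y' a (g b) = ta y (g.symm a) b := by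
        unfold ta
        rw [hg', hg', Equiv.symm_apply_apply]
      rw [h1]
      exact hb'

section Blow

variable (K : Cls D ι) (y : ℕ → ℕ → D) (ζ : D → D × D)

/-- the elements of the blow-up -/
abbrev Bl : Type := {v : ℕ × ℕ // v.2 = 0 ∨ NK K (y v.1 v.1)}

open Classical in
/-- the blow-up, modified on the pairs in `Hr` -/
noncomputable def Bn (Hr : Bl K y → Bl K y → Prop) (zm : ℕ → D × D) (u v : Bl K y) : D :=
  if u.1.1 = v.1.1 then
    (if u.1.2 = v.1.2 then y u.1.1 u.1.1 else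
      if u.1.2 < v.1.2 then (ζ (y u.1.1 u.1.1)).1 else (ζ (y u.1.1 u.1.1)).2)
  else if Hr u v then (zm u.1.1).1 else y u.1.1 v.1.1

/-- the modifications are admissible -/
structure Adm (Hr : Bl K y → Bl K y → Prop) (zm : ℕ → D × D) : Prop where
  symm : ∀ u v, Hr u v → Hr v u
  ne : ∀ u v, Hr u v → u.1.1 ≠ v.1.1
  zs : ∀ u v, Hr u v → zm v.1.1 = (zm u.1.1).swap
  mem : ∀ u v, Hr u v → (y u.1.1 u.1.1, y v.1.1 v.1.1, zm u.1.1) ∈ K.L
  pos : ∀ u v, Hr u v → v.1.2 ≠ 0

variable {K y ζ} {Hr : Bl K y → Bl K y → Prop} {zm : ℕ → D × D}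

theorem bn_self (u : Bl K y) : Bn K y ζ Hr zm u u = y u.1.1 u.1.1 := by
  unfold Bn
  rw [if_pos rfl, if_pos rfl]

theorem bn_lt {u v : Bl K y} (h : u.1.1 = v.1.1) (h2 : u.1.2 < v.1.2) :
    ta (Bn K y ζ Hr zm) u v = ζ (y u.1.1 u.1.1) := by
  unfold ta Bn
  rw [if_pos h, if_neg h2.ne, if_pos h2, if_pos h.symm, if_neg h2.ne', if_neg (not_lt.2 h2.le), h]

theorem bn_gt {u v : Bl K y} (h : u.1.1 = v.1.1) (h2 : v.1.2 < u.1.2) :
    ta (Bn K y ζ Hr zm) u v = (ζ (y u.1.1 u.1.1)).swap := by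
  rw [← ta_swap, bn_lt h.symm h2, h]

theorem bn_ne {u v : Bl K y} (hA : Adm K y Hr zm) (h : u.1.1 ≠ v.1.1) (h2 : ¬ Hr u v) :
    ta (Bn K y ζ Hr zm) u v = ta y u.1.1 v.1.1 := by
  unfold ta Bn
  rw [if_neg h, if_neg h2, if_neg h.symm, if_neg fun h3 => h2 (hA.symm _ _ h3)]

theorem bn_hr {u v : Bl K y} (hA : Adm K y Hr zm) (h2 : Hr u v) :
    ta (Bn K y ζ Hr zm) u v = zm u.1.1 := by
  have h := hA.ne _ _ h2
  unfold ta Bn
  rw [if_neg h, if_pos h2, if_neg h.symm, if_pos (hA.symm _ _ h2), hA.zs _ _ h2]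
  rfl

theorem eq_of {u v : Bl K y} (h : u.1.1 = v.1.1) (h2 : u.1.2 = v.1.2) : u = v :=
  Subtype.ext (Prod.ext h h2)

theorem mem_bn (hy : Mem K y) (hζ : ∀ p, NK K p → (p, p, ζ p) ∈ K.L) (hA : Adm K y Hr zm) :
    Mem K (Bn K y ζ Hr zm) := by
  refine ⟨fun a => ?_, fun u v huv => ?_, fun i u hu => ?_⟩
  · rw [bn_self]
    exact hy.diag _
  · rw [bn_self, bn_self]
    by_cases h : u.1.1 = v.1.1
    · have h2 : u.1.2 ≠ v.1.2 := fun h2 => huv (eq_of h h2)
      have hnk : NK K (y u.1.1 u.1.1) := by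
        rcases u.2 with h3 | h3
        · rcases v.2 with h4 | h4
          · exact absurd (h3.trans h4.symm) h2
          · rw [h]
            exact h4
        · exact h3
      rcases lt_or_gt_of_ne h2 with h3 | h3
      · rw [bn_lt h h3, ← h]
        exact hζ _ hnk
      · rw [bn_gt h h3, ← h]
        exact K.sym _ _ _ (hζ _ hnk)
    · by_cases h2 : Hr u v
      · rw [bn_hr hA h2]
        exact hA.mem _ _ h2
      · rw [bn_ne hA h h2]
        exact hy.pair _ _ h
  · rw [bn_self] at hu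
    obtain ⟨b, hb, hb'⟩ := hy.dem i _ hu
    refine ⟨⟨(b, 0), Or.inl rfl⟩, fun e => hb ?_, ?_⟩
    · rw [← e]
    · rw [bn_ne hA (fun e => hb e.symm) (fun h => hA.pos _ _ h rfl)]
      exact hb'

end Blow

section Twin

variable {V : Type} (N : V → V → D)

/-- almost twins -/
def Tw (u u' : V) : Prop :=
  N u u = N u' u' ∧ {w | w ≠ u ∧ w ≠ u' ∧ ta N u w ≠ ta N u' w}.Finite

/-- exceptional pairs -/
def Exc (u w : V) : Prop :=
  u ≠ w ∧ {u' | Tw N u u'}.Infinite ∧ {u' | Tw N u u' ∧ u' ≠ w ∧ ta N u' w = ta N u w}.Finite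

theorem finite_iff_of_equiv {V V' : Type} (g : V ≃ V') {P : V → Prop} {P' : V' → Prop}
    (h : ∀ w, P w ↔ P' (g w)) : {w | P w}.Finite ↔ {w | P' w}.Finite := by
  have e1 : {w | P w} = g ⁻¹' {w | P' w} := by
    ext w
    exact h w
  have e2 : {w | P' w} = g.symm ⁻¹' {w | P w} := by
    ext w
    change P' w ↔ P (g.symm w)
    rw [h, Equiv.apply_symm_apply]
  constructor
  · intro h1
    rw [e2]
    exact h1.preimage g.symm.injective.injOn
  · intro h1
    rw [e1]
    exact h1.preimage g.injective.injOn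

theorem exc_congr {V V' : Type} {N : V → V → D} {N' : V' → V' → D} (g : V ≃ V')
    (hg : ∀ a b, N' (g a) (g b) = N a b) (u w : V) : Exc N u w ↔ Exc N' (g u) (g w) := by
  have ht : ∀ a b, ta N' (g a) (g b) = ta N a b := by
    intro a b
    unfold ta
    rw [hg, hg]
  have hne : ∀ a b : V, a ≠ b ↔ g a ≠ g b := fun a b => g.injective.ne_iff.symm
  have htw : ∀ u u', Tw N u u' ↔ Tw N' (g u) (g u') := by
    intro u u'
    unfold Tw
    rw [hg, hg]
    refine and_congr_right fun _ => ?_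
    refine finite_iff_of_equiv g fun w => ?_
    rw [ht, ht, hne w u, hne w u']
  unfold Exc
  rw [hne u w]
  refine and_congr_right fun _ => and_congr ?_ ?_
  · exact not_congr (finite_iff_of_equiv g fun w => htw u w)
  · refine finite_iff_of_equiv g fun u' => ?_
    rw [ht, ht, htw, hne u' w]

end Twin

end Pool.Agent.H71.TV
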