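import Pool.Agent.H71.TV.A

/-!
# Two-variable classes of countable structures: exceptional pairs of the modified blow-up
-/

set_option autoImplicit false

open Set

namespace Pool.Agent.H71.TV

variable {D ι : Type}

/-- the data of a modification between two blocks -/
structure Two (K : Cls D ι) (y : ℕ → ℕ → D) (ζ : D → D × D) (Hr : Bl K y → Bl K y → Prop)
    (zm : ℕ → D × D) : Prop where
  adm : Adm K y Hr zm
  nk : ∀ u v, Hr u v → NK K (y u.1.1 u.1.1)
  fin : ∀ u, {w | Hr u w}.Finite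
  zne : ∀ u w, Hr u w → zm u.1.1 ≠ ta y u.1.1 w.1.1

variable {K : Cls D ι} {y : ℕ → ℕ → D} {ζ : D → D × D} {Hr : Bl K y → Bl K y → Prop}
  {zm : ℕ → D × D}

/-- the elements of a block -/
def el {a : ℕ} (h : NK K (y a a)) (n : ℕ) : Bl K y := ⟨(a, n), Or.inr h⟩

theorem el_inj {a : ℕ} (h : NK K (y a a)) : Function.Injective (el (K := K) (y := y) h) := by
  intro m n hmn
  have h1 := congrArg (fun v : Bl K y => v.1.2) hmn
  exact h1

theorem fin_hr' (T : Two K y ζ Hr zm) (w : Bl K y) : {u | Hr u w}.Finite :=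
  (T.fin w).subset fun u hu => T.adm.symm _ _ hu

theorem fin_le (a n : ℕ) : {w : Bl K y | w.1.1 = a ∧ w.1.2 ≤ n}.Finite := by
  have h1 : (Subtype.val '' {w : Bl K y | w.1.1 = a ∧ w.1.2 ≤ n}).Finite := by
    refine (((Set.finite_singleton a).prod (Set.finite_Iic n))).subset ?_
    rintro _ ⟨w, ⟨h2, h3⟩, rfl⟩
    exact ⟨h2, h3⟩
  exact Set.Finite.of_finite_image h1 Subtype.val_injective.injOn

theorem tw_block (T : Two K y ζ Hr zm) {u u' : Bl K y} (h : u.1.1 = u'.1.1) :
    Tw (Bn K y ζ Hr zm) u u' := by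
  refine ⟨?_, ?_⟩
  · rw [bn_self, bn_self, h]
  · refine (((fin_le u.1.1 (max u.1.2 u'.1.2)).union (T.fin u)).union (T.fin u')).subset ?_
    rintro w ⟨h1, h2, h3⟩
    by_contra hcon
    simp only [Set.mem_union, Set.mem_ofPred_eq, not_or, not_and, not_le] at hcon
    obtain ⟨⟨h4, h5⟩, h6⟩ := hcon
    apply h3
    by_cases h7 : w.1.1 = u.1.1
    · have h8 := h4 h7
      rw [bn_lt h7.symm (lt_of_le_of_lt (le_max_left _ _) h8),
        bn_lt (h.symm.trans h7.symm) (lt_of_le_of_lt (le_max_right _ _) h8), h]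
    · rw [bn_ne T.adm (fun e => h7 e.symm) h5,
        bn_ne T.adm (fun e => h7 (e.symm.trans h.symm)) h6, h]

/-- if `u` and `u'` are almost twins, a property of far elements of a block can be compared -/
theorem far {u u' : Bl K y} (h : Tw (Bn K y ζ Hr zm) u u') {b : ℕ}
    (hb : NK K (y b b)) {z z' : D × D}
    (h1 : {n | ta (Bn K y ζ Hr zm) u (el hb n) ≠ z}.Finite)
    (h2 : {n | ta (Bn K y ζ Hr zm) u' (el hb n) ≠ z'}.Finite) : z = z' := by
  have h3 : {n | el hb n ≠ u ∧ el hb n ≠ u' ∧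
      ta (Bn K y ζ Hr zm) u (el hb n) ≠ ta (Bn K y ζ Hr zm) u' (el hb n)}.Finite :=
    h.2.preimage (el_inj hb).injOn
  have h4 : {n | el hb n = u}.Finite :=
    (Set.finite_singleton u).preimage (el_inj hb).injOn
  have h5 : {n | el hb n = u'}.Finite :=
    (Set.finite_singleton u').preimage (el_inj hb).injOn
  obtain ⟨n, hn⟩ := (((((h1.union h2).union h3).union h4).union h5)).exists_notMem
  simp only [Set.mem_union, Set.mem_ofPred_eq, not_or, not_not, not_and] at hn
  obtain ⟨⟨⟨⟨g1, g2⟩, g3⟩, g4⟩, g5⟩ := hn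
  rw [← g1, ← g2]
  exact g3 g4 g5

theorem far_ne (T : Two K y ζ Hr zm) {u : Bl K y} {b : ℕ} (hb : NK K (y b b)) (h : u.1.1 ≠ b) :
    {n | ta (Bn K y ζ Hr zm) u (el hb n) ≠ ta y u.1.1 b}.Finite := by
  have h1 : {n | Hr u (el hb n)}.Finite := (T.fin u).preimage (el_inj hb).injOn
  refine h1.subset fun n hn => ?_
  by_contra h2
  exact hn (bn_ne T.adm h h2)

theorem far_eq {u : Bl K y} {b : ℕ} (hb : NK K (y b b)) (h : u.1.1 = b) :
    {n | ta (Bn K y ζ Hr zm) u (el hb n) ≠ ζ (y b b)}.Finite := by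
  refine (Set.finite_Iic u.1.2).subset fun n hn => ?_
  by_contra h2
  apply hn
  rw [bn_lt (v := el hb n) h (not_le.1 h2), h]

theorem exc_of_hr (T : Two K y ζ Hr zm) {u w : Bl K y} (h : Hr u w) :
    Exc (Bn K y ζ Hr zm) u w := by
  have hne := T.adm.ne _ _ h
  have hu := T.nk _ _ h
  have hw := T.nk _ _ (T.adm.symm _ _ h)
  refine ⟨fun e => hne (by rw [e]), ?_, ?_⟩
  · exact (Set.infinite_range_of_injective (el_inj hu)).mono (by
      rintro _ ⟨n, rfl⟩
      exact tw_block T rfl)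
  · refine (fin_hr' T w).subset ?_
    rintro u' ⟨h1, h2, h3⟩
    rw [bn_hr T.adm h] at h3
    by_contra h4
    change ¬ Hr u' w at h4
    by_cases h5 : u'.1.1 = w.1.1
    · have e1 := far h1 hw (far_ne T hw hne) (far_eq hw h5)
      have e2 := far h1 hu (far_eq hu rfl) (far_ne T hu (fun e => hne (e.symm.trans h5)))
      have e3 : y u.1.1 u.1.1 = y w.1.1 w.1.1 := by
        have h6 := h1.1
        rw [bn_self, bn_self, h5] at h6
        exact h6
      rw [h5, e3] at e2
      have e4 : (ζ (y w.1.1 w.1.1)).swap = ζ (y w.1.1 w.1.1) := by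
        rw [e2, ta_swap, e1, e2]
      have h7 : u'.1.2 ≠ w.1.2 := fun h7 => h2 (eq_of h5 h7)
      have h8 : ta (Bn K y ζ Hr zm) u' w = ζ (y w.1.1 w.1.1) := by
        rcases lt_or_gt_of_ne h7 with h8 | h8
        · rw [bn_lt h5 h8, h5]
        · rw [bn_gt h5 h8, h5, e4]
      exact T.zne _ _ h (by rw [← h3, h8, e1])
    · have e1 := far h1 hw (far_ne T hw hne) (far_ne T hw h5)
      rw [bn_ne T.adm h5 h4] at h3
      exact T.zne _ _ h (by rw [← h3, e1])

theorem hr_of_exc (hy : Mem K y) (T : Two K y ζ Hr zm) {u w : Bl K y}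
    (h1 : Exc (Bn K y ζ Hr zm) u w) (h2 : Exc (Bn K y ζ Hr zm) w u) : Hr u w := by
  by_contra hcon
  have hcon' : ¬ Hr w u := fun h => hcon (T.adm.symm _ _ h)
  have hblock : ∀ {u w : Bl K y}, Exc (Bn K y ζ Hr zm) u w → u.1.1 = w.1.1 →
      w.1.2 < u.1.2 → False := by
    intro u w h1 he hlt
    have hnk : NK K (y u.1.1 u.1.1) := by
      rcases u.2 with h | h
      · omega
      · exact h
    refine absurd h1.2.2 ?_
    change Set.Infinite _
    have h3 : (el hnk '' Set.Ioi w.1.2).Infinite :=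
      (Set.Ioi_infinite _).image (el_inj hnk).injOn
    refine h3.mono ?_
    rintro _ ⟨n, hn, rfl⟩
    refine ⟨tw_block T rfl, fun e => ?_, ?_⟩
    · have h4 := congrArg (fun v : Bl K y => v.1.2) e
      exact absurd h4 (ne_of_gt hn)
    · rw [bn_gt (u := el hnk n) he hn, bn_gt he hlt]
      rfl
  by_cases he : u.1.1 = w.1.1
  · have h3 : u.1.2 ≠ w.1.2 := fun h3 => h1.1 (eq_of he h3)
    rcases lt_or_gt_of_ne h3 with h4 | h4
    · exact hblock h2 he.symm h4
    · exact hblock h1 he h4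
  · by_cases hnk : NK K (y u.1.1 u.1.1)
    · refine absurd h1.2.2 ?_
      change Set.Infinite _
      have h3 : {n | Hr (el hnk n) w}.Finite := (fin_hr' T w).preimage (el_inj hnk).injOn
      have h4 : (el hnk '' {n | Hr (el hnk n) w}ᶜ).Infinite :=
        h3.infinite_compl.image (el_inj hnk).injOn
      refine h4.mono ?_
      rintro _ ⟨n, hn, rfl⟩
      have hel : (el hnk n).1.1 = u.1.1 := rfl
      refine ⟨tw_block T rfl, fun e => he ?_, ?_⟩
      · rw [← hel, e]
      · rw [bn_ne (u := el hnk n) T.adm he hn, bn_ne T.adm he hcon]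
        rfl
    · apply h1.2.1
      refine (Set.finite_singleton u).subset ?_
      rintro u' h3
      have h4 := h3.1
      rw [bn_self, bn_self] at h4
      have h5 : u'.1.1 = u.1.1 := by
        by_contra h5
        have h6 := hy.pair _ _ h5
        rw [← h4] at h6
        exact hnk ⟨_, h6⟩
      have h6 : u.1.2 = 0 := u.2.resolve_right hnk
      have h7 : u'.1.2 = 0 := u'.2.resolve_right (by rw [h5]; exact hnk)
      exact eq_of h5 (h7.trans h6.symm)

theorem exc_iff (hy : Mem K y) (T : Two K y ζ Hr zm) (u w : Bl K y) :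
    (Exc (Bn K y ζ Hr zm) u w ∧ Exc (Bn K y ζ Hr zm) w u) ↔ Hr u w :=
  ⟨fun h => hr_of_exc hy T h.1 h.2, fun h => ⟨exc_of_hr T h, exc_of_hr T (T.adm.symm _ _ h)⟩⟩

end Pool.Agent.H71.TV
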