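import Pool.Agent.H71.TV.A2

/-!
# Two-variable classes of countable structures: perfectly many types from one structure
-/

set_option autoImplicit false

open Set

namespace Pool.Agent.H71.TV

variable {D ι : Type}

/-- the bipartite graph of degrees coded by `S` -/
def G (S : ℕ → Bool) (i j : ℕ) : Prop :=
  ∃ n m, i = n + 1 ∧ S n = true ∧ m < n + 2 ∧ j = Nat.pair n m + 1

theorem G_left (S : ℕ → Bool) (n j : ℕ) :
    G S (n + 1) j ↔ S n = true ∧ ∃ m < n + 2, j = Nat.pair n m + 1 := by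
  constructor
  · rintro ⟨n', m, h1, h2, h3, h4⟩
    obtain rfl : n = n' := by omega
    exact ⟨h2, m, h3, h4⟩
  · rintro ⟨h1, m, h2, h3⟩
    exact ⟨n, m, rfl, h1, h2, h3⟩

theorem G_fin_left (S : ℕ → Bool) (i : ℕ) : {j | G S i j}.Finite := by
  refine ((Set.finite_Iio (i + 2)).image fun m => Nat.pair (i - 1) m + 1).subset ?_
  rintro j ⟨n, m, h1, _, h3, h4⟩
  refine ⟨m, ?_, ?_⟩
  · change m < i + 2
    omega
  · change Nat.pair (i - 1) m + 1 = j
    rw [h4, h1, Nat.add_sub_cancel]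

theorem G_uniq_right (S : ℕ → Bool) {i i' j : ℕ} (h : G S i j) (h' : G S i' j) : i = i' := by
  obtain ⟨n, m, h1, _, _, h4⟩ := h
  obtain ⟨n', m', h1', _, _, h4'⟩ := h'
  have h5 : Nat.pair n m = Nat.pair n' m' := by omega
  have h6 := congrArg Nat.unpair h5
  rw [Nat.unpair_pair, Nat.unpair_pair] at h6
  have h7 : n = n' := congrArg Prod.fst h6
  omega

theorem G_pos {S : ℕ → Bool} {i j : ℕ} (h : G S i j) : i ≠ 0 ∧ j ≠ 0 := by
  obtain ⟨n, m, h1, _, _, h4⟩ := h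
  omega

section

variable (K : Cls D ι) (y : ℕ → ℕ → D) (a0 b0 : ℕ) (z' : D × D)

/-- the modified pairs -/
def HrS (S : ℕ → Bool) (u v : Bl K y) : Prop :=
  (u.1.1 = a0 ∧ v.1.1 = b0 ∧ G S u.1.2 v.1.2) ∨ (u.1.1 = b0 ∧ v.1.1 = a0 ∧ G S v.1.2 u.1.2)

open Classical in
/-- the new labels -/
noncomputable def zmS (a : ℕ) : D × D := if a = a0 then z' else z'.swap

end

variable {K : Cls D ι} {y : ℕ → ℕ → D} {a0 b0 : ℕ} {z' : D × D} {ζ : D → D × D}

theorem zmS_left : zmS a0 z' a0 = z' := if_pos rfl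

theorem zmS_right (h : a0 ≠ b0) : zmS a0 z' b0 = z'.swap := if_neg h.symm

theorem two_S (hne : a0 ≠ b0) (ha : NK K (y a0 a0)) (hb : NK K (y b0 b0))
    (hz : (y a0 a0, y b0 b0, z') ∈ K.L) (hz' : z' ≠ ta y a0 b0) (S : ℕ → Bool) :
    Two K y ζ (HrS K y a0 b0 S) (zmS a0 z') := by
  refine ⟨⟨?_, ?_, ?_, ?_, ?_⟩, ?_, ?_, ?_⟩
  · rintro u v (⟨h1, h2, h3⟩ | ⟨h1, h2, h3⟩)
    · exact Or.inr ⟨h2, h1, h3⟩
    · exact Or.inl ⟨h2, h1, h3⟩
  · rintro u v (⟨h1, h2, h3⟩ | ⟨h1, h2, h3⟩)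
    · rw [h1, h2]
      exact hne
    · rw [h1, h2]
      exact hne.symm
  · rintro u v (⟨h1, h2, h3⟩ | ⟨h1, h2, h3⟩)
    · rw [h1, h2, zmS_left, zmS_right hne]
    · rw [h1, h2, zmS_left, zmS_right hne, Prod.swap_swap]
  · rintro u v (⟨h1, h2, h3⟩ | ⟨h1, h2, h3⟩)
    · rw [h1, h2, zmS_left]
      exact hz
    · rw [h1, h2, zmS_right hne]
      exact K.sym _ _ _ hz
  · rintro u v (⟨h1, h2, h3⟩ | ⟨h1, h2, h3⟩)
    · exact (G_pos h3).2
    · exact (G_pos h3).1
  · rintro u v (⟨h1, h2, h3⟩ | ⟨h1, h2, h3⟩)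
    · rw [h1]
      exact ha
    · rw [h1]
      exact hb
  · intro u
    have h1 : (Subtype.val '' {w | HrS K y a0 b0 S u w}).Finite := by
      refine ((((Set.finite_singleton b0).prod (G_fin_left S u.1.2)).union
        ((Set.finite_singleton a0).prod (s := {a0}) (t := {i | G S i u.1.2}) ?_))).subset ?_
      · have h1 : {i | G S i u.1.2}.Subsingleton := fun i hi j hj => G_uniq_right S hi hj
        exact h1.finite
      · rintro _ ⟨w, (⟨h1, h2, h3⟩ | ⟨h1, h2, h3⟩), rfl⟩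
        · exact Or.inl ⟨h2, h3⟩
        · exact Or.inr ⟨h2, h3⟩
    exact Set.Finite.of_finite_image h1 Subtype.val_injective.injOn
  · rintro u v (⟨h1, h2, h3⟩ | ⟨h1, h2, h3⟩)
    · rw [h1, h2, zmS_left]
      exact hz'
    · rw [h1, h2, zmS_right hne]
      intro h4
      apply hz'
      rw [← Prod.swap_swap z', h4, ta_swap]

theorem deg_of (hne : a0 ≠ b0) (ha : NK K (y a0 a0)) (hb : NK K (y b0 b0)) {S : ℕ → Bool} {n : ℕ}
    (h : S n = true) : {w | HrS K y a0 b0 S (el ha (n + 1)) w}.ncard = n + 2 := by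
  have h1 : {w | HrS K y a0 b0 S (el ha (n + 1)) w} =
      (fun m => el hb (Nat.pair n m + 1)) '' (Finset.range (n + 2) : Set ℕ) := by
    ext w
    constructor
    · rintro (⟨h1, h2, h3⟩ | ⟨h1, h2, h3⟩)
      · obtain ⟨_, m, h4, h5⟩ := (G_left S n _).1 h3
        refine ⟨m, Finset.mem_coe.2 (Finset.mem_range.2 h4), ?_⟩
        exact eq_of h2.symm h5.symm
      · exact absurd h1 hne
    · rintro ⟨m, hm, rfl⟩
      exact Or.inl ⟨rfl, rfl, (G_left S n _).2 ⟨h, m, Finset.mem_range.1 (Finset.mem_coe.1 hm), rfl⟩⟩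
  rw [h1, Set.ncard_image_of_injective, Set.ncard_coe_finset, Finset.card_range]
  intro m m' hmm
  have h2 := el_inj hb hmm
  have h3 : Nat.pair n m = Nat.pair n m' := by omega
  have h6 := congrArg Nat.unpair h3
  rw [Nat.unpair_pair, Nat.unpair_pair] at h6
  exact congrArg Prod.snd h6

theorem of_deg (hne : a0 ≠ b0) (ha : NK K (y a0 a0)) (hb : NK K (y b0 b0)) {S : ℕ → Bool} {n : ℕ}
    {u : Bl K y} (h : {w | HrS K y a0 b0 S u w}.ncard = n + 2) : S n = true := by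
  have hne' : {w | HrS K y a0 b0 S u w}.Nonempty := by
    refine Set.nonempty_of_ncard_ne_zero ?_
    omega
  by_cases h1 : u.1.1 = a0
  · obtain ⟨w, (⟨g1, g2, g3⟩ | ⟨g1, g2, g3⟩)⟩ := hne'
    · obtain ⟨n', m, h4, h5, _, _⟩ := g3
      have h6 : u = el ha (n' + 1) := eq_of g1 h4
      rw [h6, deg_of hne ha hb h5] at h
      obtain rfl : n' = n := by omega
      exact h5
    · exact absurd (g1.symm.trans h1) hne.symm
  · exfalso
    have h2 : {w | HrS K y a0 b0 S u w}.Subsingleton := by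
      rintro w (⟨g1, g2, g3⟩ | ⟨g1, g2, g3⟩) w' (⟨k1, k2, k3⟩ | ⟨k1, k2, k3⟩)
      · exact absurd g1 h1
      · exact absurd g1 h1
      · exact absurd k1 h1
      · exact eq_of (g2.trans k2.symm) (G_uniq_right S g3 k3)
    rcases h2.eq_empty_or_singleton with h3 | ⟨w, h3⟩
    · rw [h3, Set.ncard_empty] at h
      omega
    · rw [h3, Set.ncard_singleton] at h
      omega

/-- the exceptional degrees determine `S` -/
theorem deg_iff (hy : Mem K y) (hne : a0 ≠ b0) (ha : NK K (y a0 a0)) (hb : NK K (y b0 b0))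
    (hz : (y a0 a0, y b0 b0, z') ∈ K.L) (hz' : z' ≠ ta y a0 b0) (S : ℕ → Bool) (n : ℕ) :
    S n = true ↔ ∃ u, {w | Exc (Bn K y ζ (HrS K y a0 b0 S) (zmS a0 z')) u w ∧
      Exc (Bn K y ζ (HrS K y a0 b0 S) (zmS a0 z')) w u}.ncard = n + 2 := by
  have h1 : ∀ u, {w | Exc (Bn K y ζ (HrS K y a0 b0 S) (zmS a0 z')) u w ∧
      Exc (Bn K y ζ (HrS K y a0 b0 S) (zmS a0 z')) w u} = {w | HrS K y a0 b0 S u w} := by
    intro u
    ext w
    exact exc_iff hy (two_S hne ha hb hz hz' S) u w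
  simp only [h1]
  exact ⟨fun h => ⟨_, deg_of hne ha hb h⟩, fun ⟨u, hu⟩ => of_deg hne ha hb hu⟩

theorem deg_congr {V V' : Type} {N : V → V → D} {N' : V' → V' → D} (g : V ≃ V')
    (hg : ∀ a b, N' (g a) (g b) = N a b) (k : ℕ) :
    (∃ u, {w | Exc N u w ∧ Exc N w u}.ncard = k) →
      ∃ u, {w | Exc N' u w ∧ Exc N' w u}.ncard = k := by
  rintro ⟨u, hu⟩
  refine ⟨g u, ?_⟩
  rw [← hu]
  have h1 : {w | Exc N' (g u) w ∧ Exc N' w (g u)} = g '' {w | Exc N u w ∧ Exc N w u} := by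
    ext w
    constructor
    · rintro ⟨h1, h2⟩
      refine ⟨g.symm w, ⟨?_, ?_⟩, g.apply_symm_apply w⟩
      · rw [exc_congr g hg, g.apply_symm_apply]
        exact h1
      · rw [exc_congr g hg, g.apply_symm_apply]
        exact h2
    · rintro ⟨w, ⟨h1, h2⟩, rfl⟩
      exact ⟨(exc_congr g hg _ _).1 h1, (exc_congr g hg _ _).1 h2⟩
  rw [h1, Set.ncard_image_of_injective _ g.injective]

theorem exists_equiv (K : Cls D ι) (y : ℕ → ℕ → D) : Nonempty (Bl K y ≃ ℕ) := by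
  have h1 : Infinite (Bl K y) :=
    Infinite.of_injective (fun a : ℕ => (⟨(a, 0), Or.inl rfl⟩ : Bl K y)) fun a b h =>
      congrArg (fun v : Bl K y => v.1.1) h
  exact nonempty_equiv_of_countable

theorem meas_G (i j : ℕ) : MeasurableSet {S : ℕ → Bool | G S i j} := by
  have h1 : {S : ℕ → Bool | G S i j} = ⋃ n, ⋃ m, {S : ℕ → Bool | S n = true ∧
      (i = n + 1 ∧ m < n + 2 ∧ j = Nat.pair n m + 1)} := by
    ext S
    simp only [Set.mem_iUnion, Set.mem_ofPred_eq]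
    constructor
    · rintro ⟨n, m, h1, h2, h3, h4⟩
      exact ⟨n, m, h2, h1, h3, h4⟩
    · rintro ⟨n, m, h2, h1, h3, h4⟩
      exact ⟨n, m, h1, h2, h3, h4⟩
  rw [h1]
  refine MeasurableSet.iUnion fun n => MeasurableSet.iUnion fun m => ?_
  have h2 : MeasurableSet {S : ℕ → Bool | S n = true} :=
    measurable_pi_apply (X := fun _ : ℕ => Bool) n (measurableSet_singleton true)
  exact h2.inter (MeasurableSet.const _)

theorem meas_HrS (u v : Bl K y) : MeasurableSet {S : ℕ → Bool | HrS K y a0 b0 S u v} := by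
  have h1 : {S : ℕ → Bool | HrS K y a0 b0 S u v} =
      ({S | u.1.1 = a0 ∧ v.1.1 = b0} ∩ {S | G S u.1.2 v.1.2}) ∪
      ({S | u.1.1 = b0 ∧ v.1.1 = a0} ∩ {S | G S v.1.2 u.1.2}) := by
    ext S
    constructor
    · rintro (⟨h1, h2, h3⟩ | ⟨h1, h2, h3⟩)
      · exact Or.inl ⟨⟨h1, h2⟩, h3⟩
      · exact Or.inr ⟨⟨h1, h2⟩, h3⟩
    · rintro (⟨⟨h1, h2⟩, h3⟩ | ⟨⟨h1, h2⟩, h3⟩)
      · exact Or.inl ⟨h1, h2, h3⟩
      · exact Or.inr ⟨h1, h2, h3⟩
  rw [h1]
  exact ((MeasurableSet.const _).inter (meas_G _ _)).union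
    ((MeasurableSet.const _).inter (meas_G _ _))

/-- perfectly many isomorphism types, from two elements -/
theorem perfect_two [MeasurableSpace D] (hy : Mem K y) (hne : a0 ≠ b0) (ha : NK K (y a0 a0))
    (hb : NK K (y b0 b0)) (hz : (y a0 a0, y b0 b0, z') ∈ K.L) (hz' : z' ≠ ta y a0 b0) :
    ∃ F : (ℕ → Bool) → ℕ → ℕ → D, Measurable F ∧ (∀ S, Mem K (F S)) ∧
      ∀ S S', Iso (F S) (F S') → S = S' := by
  classical
  have hc : ∃ ζ : D → D × D, ∀ p, NK K p → (p, p, ζ p) ∈ K.L := by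
    refine ⟨fun p => if h : NK K p then h.choose else z', fun p h => ?_⟩
    change (p, p, dite _ _ _) ∈ K.L
    rw [dif_pos h]
    exact h.choose_spec
  obtain ⟨ζ, hζ⟩ := hc
  obtain ⟨e⟩ := exists_equiv K y
  refine ⟨fun S i j => Bn K y ζ (HrS K y a0 b0 S) (zmS a0 z') (e.symm i) (e.symm j), ?_, ?_, ?_⟩
  · refine measurable_pi_lambda _ fun i => measurable_pi_lambda _ fun j => ?_
    unfold Bn
    split_ifs with h1 h2 h3
    · exact measurable_const
    · exact measurable_const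
    · exact measurable_const
    · exact Measurable.ite (meas_HrS _ _) measurable_const measurable_const
  · intro S
    refine Mem.congr (mem_bn hy hζ (two_S (ζ := ζ) hne ha hb hz hz' S).adm) e fun u v => ?_
    simp only [Equiv.symm_apply_apply]
  · rintro S S' ⟨g, hg⟩
    have hg' : ∀ u v, Bn K y ζ (HrS K y a0 b0 S') (zmS a0 z') ((e.trans (g.trans e.symm)) u)
        ((e.trans (g.trans e.symm)) v) = Bn K y ζ (HrS K y a0 b0 S) (zmS a0 z') u v := by
      intro u v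
      have h1 := hg (e u) (e v)
      simp only [Equiv.symm_apply_apply] at h1
      exact h1
    have hg'' : ∀ u v, Bn K y ζ (HrS K y a0 b0 S) (zmS a0 z') ((e.trans (g.trans e.symm)).symm u)
        ((e.trans (g.trans e.symm)).symm v) = Bn K y ζ (HrS K y a0 b0 S') (zmS a0 z') u v := by
      intro u v
      rw [← hg', Equiv.apply_symm_apply, Equiv.apply_symm_apply]
    have h2 : ∀ n, S n = true ↔ S' n = true := by
      intro n
      rw [deg_iff (ζ := ζ) hy hne ha hb hz hz' S n, deg_iff (ζ := ζ) hy hne ha hb hz hz' S' n]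
      exact ⟨deg_congr _ hg' _, deg_congr _ hg'' _⟩
    funext n
    exact Bool.eq_iff_iff.2 (h2 n)

/-- perfectly many isomorphism types, from one element -/
theorem perfect [MeasurableSpace D] (hy : Mem K y) (ha : NK K (y a0 a0)) (hb : NK K (y b0 b0))
    {z1 z2 : D × D} (hz1 : (y a0 a0, y b0 b0, z1) ∈ K.L) (hz2 : (y a0 a0, y b0 b0, z2) ∈ K.L)
    (h12 : z1 ≠ z2) :
    ∃ F : (ℕ → Bool) → ℕ → ℕ → D, Measurable F ∧ (∀ S, Mem K (F S)) ∧
      ∀ S S', Iso (F S) (F S') → S = S' := by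
  classical
  have key : ∀ (y : ℕ → ℕ → D) (a0 b0 : ℕ), Mem K y → a0 ≠ b0 → NK K (y a0 a0) →
      NK K (y b0 b0) → (y a0 a0, y b0 b0, z1) ∈ K.L → (y a0 a0, y b0 b0, z2) ∈ K.L →
      ∃ F : (ℕ → Bool) → ℕ → ℕ → D, Measurable F ∧ (∀ S, Mem K (F S)) ∧
        ∀ S S', Iso (F S) (F S') → S = S' := by
    intro y a0 b0 hy hne ha hb hz1 hz2
    by_cases h : z1 = ta y a0 b0
    · exact perfect_two hy hne ha hb hz2 (by rw [← h]; exact h12.symm)
    · exact perfect_two hy hne ha hb hz1 h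
  by_cases hne : a0 = b0
  · have hc : ∃ ζ : D → D × D, ∀ p, NK K p → (p, p, ζ p) ∈ K.L := by
      refine ⟨fun p => if h : NK K p then h.choose else z1, fun p h => ?_⟩
      change (p, p, dite _ _ _) ∈ K.L
      rw [dif_pos h]
      exact h.choose_spec
    obtain ⟨ζ, hζ⟩ := hc
    obtain ⟨e⟩ := exists_equiv K y
    have hA : Adm K y (fun _ _ => False) (fun _ => z1) :=
      ⟨fun _ _ h => h, fun _ _ h => h.elim, fun _ _ h => h.elim, fun _ _ h => h.elim,
        fun _ _ h => h.elim⟩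
    have hM : Mem K (fun i j : ℕ => Bn K y ζ (fun _ _ => False) (fun _ => z1) (e.symm i)
        (e.symm j)) := by
      refine Mem.congr (mem_bn hy hζ hA) e fun u v => ?_
      simp only [Equiv.symm_apply_apply]
    have hlab : ∀ n, Bn K y ζ (fun _ _ => False) (fun _ => z1) (e.symm (e (el ha n)))
        (e.symm (e (el ha n))) = y a0 a0 := by
      intro n
      rw [Equiv.symm_apply_apply, bn_self]
      rfl
    refine key _ (e (el ha 0)) (e (el ha 1)) hM ?_ ?_ ?_ ?_ ?_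
    · intro h
      exact absurd (el_inj ha (e.injective h)) (by decide)
    · change NK K (Bn K y ζ _ _ _ _)
      rw [hlab]
      exact ha
    · change NK K (Bn K y ζ _ _ _ _)
      rw [hlab]
      exact ha
    · change (Bn K y ζ _ _ _ _, Bn K y ζ _ _ _ _, z1) ∈ K.L
      rw [hlab, hlab]
      rw [← hne] at hz1
      exact hz1
    · change (Bn K y ζ _ _ _ _, Bn K y ζ _ _ _ _, z2) ∈ K.L
      rw [hlab, hlab]
      rw [← hne] at hz2
      exact hz2
  · exact key y a0 b0 hy hne ha hb hz1 hz2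

end Pool.Agent.H71.TV
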