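import Mathlib

/-!
# Counting for difunctional relations
-/

set_option autoImplicit false

open Set

namespace Pool.Agent.H71.TV

/-- difunctional relations -/
def Difun (R : ℕ → ℕ → Prop) : Prop := ∀ a b a' b', R a a' → R b a' → R b b' → R a b'

/-- the counts agree -/
def Cnt (R : ℕ → ℕ → Prop) : Prop :=
  (∀ a, ∃ a', R a a') ∧ (∀ a', ∃ a, R a a') ∧ ∀ n a a', R a a' →
    ((∃ s : Finset ℕ, s.card = n ∧ ∀ b, b ∈ s → R b a') ↔
      ∃ s : Finset ℕ, s.card = n ∧ ∀ b, b ∈ s → R a b)

theorem cnt_of_bij {R : ℕ → ℕ → Prop} (hR : Difun R) (g : ℕ ≃ ℕ) (hg : ∀ a, R a (g a)) :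
    Cnt R := by
  refine ⟨fun a => ⟨_, hg a⟩, fun a' => ⟨g.symm a', ?_⟩, fun n a a' haa => ⟨?_, ?_⟩⟩
  · have h := hg (g.symm a')
    rw [g.apply_symm_apply] at h
    exact h
  · rintro ⟨s, hs, h⟩
    refine ⟨s.map g.toEmbedding, by rw [Finset.card_map, hs], fun b' hb' => ?_⟩
    obtain ⟨b, hb, rfl⟩ := Finset.mem_map.1 hb'
    exact hR a b a' (g b) haa (h b hb) (hg b)
  · rintro ⟨s, hs, h⟩
    refine ⟨s.map g.symm.toEmbedding, by rw [Finset.card_map, hs], fun b hb => ?_⟩
    obtain ⟨b', hb', rfl⟩ := Finset.mem_map.1 hb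
    have h1 := hg (g.symm b')
    rw [g.apply_symm_apply] at h1
    exact hR _ a b' a' h1 (h b' hb') haa

/-- sets of natural numbers with the same finite cardinalities of subsets -/
theorem equiv_of_card {A B : Set ℕ}
    (h : ∀ n, (∃ s : Finset ℕ, s.card = n ∧ ∀ b, b ∈ s → b ∈ A) ↔
      ∃ s : Finset ℕ, s.card = n ∧ ∀ b, b ∈ s → b ∈ B) : Nonempty (A ≃ B) := by
  have key : ∀ A : Set ℕ, (∀ n : ℕ, (n : ℕ∞) ≤ A.encard ↔
      ∃ s : Finset ℕ, s.card = n ∧ ∀ b, b ∈ s → b ∈ A) := by
    intro A n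
    constructor
    · intro h1
      obtain ⟨t, ht, htn⟩ := Set.exists_subset_encard_eq h1
      have hfin : t.Finite := Set.finite_of_encard_eq_coe htn
      refine ⟨hfin.toFinset, ?_, fun b hb => ht (hfin.mem_toFinset.1 hb)⟩
      rw [hfin.encard_eq_coe_toFinset_card] at htn
      exact_mod_cast htn
    · rintro ⟨s, hs, h1⟩
      rw [← hs, ← Set.encard_coe_eq_coe_finsetCard]
      exact Set.encard_le_encard fun b hb => h1 b (Finset.mem_coe.1 hb)
  have h1 : A.encard = B.encard := by
    refine le_antisymm ?_ ?_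
    · refine ENat.forall_natCast_le_iff_le.1 fun n hn => ?_
      exact (key B n).2 ((h n).1 ((key A n).1 hn))
    · refine ENat.forall_natCast_le_iff_le.1 fun n hn => ?_
      exact (key A n).2 ((h n).2 ((key B n).1 hn))
  by_cases hf : A.Finite
  · have hf' : B.Finite := by
      rw [← Set.encard_lt_top_iff] at hf ⊢
      rw [← h1]
      exact hf
    have h2 : A.ncard = B.ncard := by
      unfold Set.ncard
      rw [h1]
    have : Finite A := hf
    have : Finite B := hf'
    exact Finite.card_eq.1 h2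
  · have hf' : B.Infinite := by
      intro hf'
      apply hf
      rw [← Set.encard_lt_top_iff] at hf' ⊢
      rw [h1]
      exact hf'
    have : Infinite A := Set.infinite_coe_iff.2 hf
    have : Infinite B := Set.infinite_coe_iff.2 hf'
    exact nonempty_equiv_of_countable

theorem bij_of_cnt {R : ℕ → ℕ → Prop} (hR : Difun R) (h : Cnt R) :
    ∃ g : ℕ ≃ ℕ, ∀ a, R a (g a) := by
  classical
  obtain ⟨h1, h2, h3⟩ := h
  let f : ℕ → ℕ := fun a => Nat.find (h1 a)
  have hf : ∀ a, R a (f a) := fun a => Nat.find_spec (h1 a)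
  have h4 : ∀ a', ∃ b', ∃ a, R a a' ∧ R a b' := fun a' => by
    obtain ⟨a, ha⟩ := h2 a'
    exact ⟨a', a, ha, ha⟩
  let f' : ℕ → ℕ := fun a' => Nat.find (h4 a')
  have hf' : ∀ a', ∃ a, R a a' ∧ R a (f' a') := fun a' => Nat.find_spec (h4 a')
  have hff : ∀ a a', R a a' → f a = f' a' := by
    intro a a' haa
    have e1 : ∀ b', R a b' ↔ ∃ b, R b a' ∧ R b b' := by
      intro b'
      constructor
      · intro h
        exact ⟨a, haa, h⟩
      · rintro ⟨b, hb1, hb2⟩
        exact hR a b a' b' haa hb1 hb2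
    change Nat.find (h1 a) = Nat.find (h4 a')
    exact Nat.find_congr' (fun {b'} => e1 b')
  have hiff : ∀ a a', R a a' ↔ f a = f' a' := by
    intro a a'
    refine ⟨hff a a', fun h => ?_⟩
    obtain ⟨b, hb1, hb2⟩ := hf' a'
    refine hR a b (f' a') a' ?_ hb2 hb1
    rw [← h]
    exact hf a
  have hfib : ∀ k, Nonempty ({a // f a = k} ≃ {a' // f' a' = k}) := by
    intro k
    by_cases hk : ∃ a, f a = k
    · obtain ⟨a, ha⟩ := hk
      obtain ⟨a', ha'⟩ := h1 a
      have ha'k : f' a' = k := by rw [← hff a a' ha', ha]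
      refine equiv_of_card (A := {a | f a = k}) (B := {a' | f' a' = k}) fun n => ?_
      have h5 := h3 n a a' ha'
      have e1 : ∀ b, R b a' ↔ f b = k := fun b => by rw [hiff, ha'k]
      have e2 : ∀ b, R a b ↔ f' b = k := fun b => by rw [hiff, ha, eq_comm]
      simp only [e1, e2] at h5
      exact h5
    · have hk' : ¬ ∃ a', f' a' = k := by
        rintro ⟨a', ha'⟩
        obtain ⟨a, ha⟩ := h2 a'
        exact hk ⟨a, by rw [hff a a' ha, ha']⟩
      have : IsEmpty {a // f a = k} := ⟨fun x => hk ⟨x.1, x.2⟩⟩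
      have : IsEmpty {a' // f' a' = k} := ⟨fun x => hk' ⟨x.1, x.2⟩⟩
      exact ⟨Equiv.equivOfIsEmpty _ _⟩
  let g : ℕ ≃ ℕ := (Equiv.sigmaFiberEquiv f).symm.trans
    ((Equiv.sigmaCongrRight fun k => (hfib k).some).trans (Equiv.sigmaFiberEquiv f'))
  refine ⟨g, fun a => (hiff a (g a)).2 ?_⟩
  have h5 : f' ((hfib (f a)).some ⟨a, rfl⟩ : ℕ) = f a := ((hfib (f a)).some ⟨a, rfl⟩).2
  exact h5.symm

theorem meas_cnt {Ω : Type} [MeasurableSpace Ω] {R : Ω → ℕ → ℕ → Prop}
    (h : ∀ a a', Measurable fun w => R w a a') : Measurable fun w => Cnt (R w) := by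
  unfold Cnt
  refine (Measurable.forall fun a => Measurable.exists fun a' => h a a').and
    ((Measurable.forall fun a' => Measurable.exists fun a => h a a').and
    (Measurable.forall fun n => Measurable.forall fun a => Measurable.forall fun a' =>
      (h a a').imp (Measurable.iff ?_ ?_)))
  · exact Measurable.exists fun s => measurable_const.and
      (Measurable.forall fun b => measurable_const.imp (h b a'))
  · exact Measurable.exists fun s => measurable_const.and
      (Measurable.forall fun b => measurable_const.imp (h a b))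

end Pool.Agent.H71.TV
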