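import Pool.Agent.H71.TV.A3
import Pool.Agent.H71.TV.B1
import Pool.Agent.H73.HV.Silver

/-!
# Two-variable classes of countable structures: the dichotomy
-/

set_option autoImplicit false

open Set

namespace Pool.Agent.H71.TV

variable {D ι : Type}

/-- `c` is the only element with its label -/
def Kg (y : ℕ → ℕ → D) (c : ℕ) : Prop := ∀ c', c' ≠ c → y c' c' ≠ y c c

/-- the profiles of `a` in `y` and `a'` in `y'` agree -/
def Pr (y y' : ℕ → ℕ → D) (a a' : ℕ) : Prop :=
  y a a = y' a' a' ∧ ∀ c c', Kg y c → Kg y' c' → y c c = y' c' c' →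
    c ≠ a → c' ≠ a' → ta y a c = ta y' a' c'

theorem difun_pr (y y' : ℕ → ℕ → D) : Difun (Pr y y') := by
  intro a b a' b' h1 h2 h3
  refine ⟨h1.1.trans (h2.1.symm.trans h3.1), fun c c' hc hc' hcc hca hca' => ?_⟩
  have hcb : c ≠ b := by
    rintro rfl
    have e1 : y' b' b' = y' c' c' := by rw [← h3.1, hcc]
    exact hc' b' (fun e => hca' e.symm) e1
  have hca'' : c' ≠ a' := by
    rintro rfl
    have e1 : y a a = y c c := by rw [h1.1, hcc]
    exact hc a (fun e => hca e.symm) e1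
  rw [h1.2 c c' hc hc' hcc hca hca'', ← h2.2 c c' hc hc' hcc hcb hca'',
    h3.2 c c' hc hc' hcc hcb hca']

/-- no fat pairs of repeatable labels -/
def Thin (K : Cls D ι) : Prop :=
  ∀ y : ℕ → ℕ → D, Mem K y → ∀ a b, NK K (y a a) → NK K (y b b) → ∀ z1 z2,
    (y a a, y b b, z1) ∈ K.L → (y a a, y b b, z2) ∈ K.L → z1 = z2

theorem kg_of_iso {y y' : ℕ → ℕ → D} {g : ℕ ≃ ℕ} (hg : ∀ a, y' (g a) (g a) = y a a) {c : ℕ}
    (hc : Kg y c) : Kg y' (g c) := by
  intro c' hc' h
  have h1 := hg (g.symm c')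
  rw [g.apply_symm_apply, h, hg] at h1
  exact hc (g.symm c') (fun e => hc' (by rw [← e, g.apply_symm_apply])) h1.symm

theorem iso_cnt {y y' : ℕ → ℕ → D} (h : Iso y y') : Cnt (Pr y y') := by
  obtain ⟨g, hg⟩ := h
  refine cnt_of_bij (difun_pr y y') g fun a => ⟨(hg a a).symm, fun c c' hc hc' hcc _ _ => ?_⟩
  have h1 : c' = g c := by
    by_contra h1
    exact hc' (g c) (fun e => h1 e.symm) (by rw [hg, hcc])
  rw [h1]
  unfold ta
  rw [hg, hg]

theorem iso_of_cnt {y y' : ℕ → ℕ → D}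
    (hT : ∀ a b a' b', a ≠ b → a' ≠ b' → ¬ Kg y a → ¬ Kg y b → y' a' a' = y a a →
      y' b' b' = y b b → ta y a b = ta y' a' b')
    (h : Cnt (Pr y y')) : Iso y y' := by
  obtain ⟨g, hg⟩ := bij_of_cnt (difun_pr y y') h
  have hd : ∀ a, y' (g a) (g a) = y a a := fun a => (hg a).1.symm
  have hkey : ∀ a c, c ≠ a → Kg y c → ta y a c = ta y' (g a) (g c) := by
    intro a c hca hc
    exact (hg a).2 c (g c) hc (kg_of_iso hd hc) (hd c).symm hca
      (fun e => hca (g.injective e))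
  refine ⟨g, fun a b => ?_⟩
  by_cases hab : a = b
  · rw [hab]
    exact hd b
  by_cases hb : Kg y b
  · have h1 := hkey a b (fun e => hab e.symm) hb
    exact (congrArg Prod.fst h1).symm
  by_cases ha : Kg y a
  · have h1 := hkey b a hab ha
    exact (congrArg Prod.snd h1).symm
  · have h3 := hT a b (g a) (g b) hab (fun e => hab (g.injective e)) ha hb (hd a) (hd b)
    exact (congrArg Prod.fst h3).symm

theorem iso_iff {K : Cls D ι} (hK : Thin K) {y y' : ℕ → ℕ → D} (hy : Mem K y) (hy' : Mem K y') :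
    Iso y y' ↔ Cnt (Pr y y') := by
  refine ⟨iso_cnt, iso_of_cnt fun a b a' b' hab hab' ha hb ha' hb' => ?_⟩
  have hnk : ∀ a, ¬ Kg y a → NK K (y a a) := by
    intro a ha
    unfold Kg at ha
    push Not at ha
    obtain ⟨a', ha', h1⟩ := ha
    have h2 := hy.pair a a' (fun e => ha' e.symm)
    rw [h1] at h2
    exact ⟨_, h2⟩
  have h1 := hy.pair a b hab
  have h2 := hy'.pair a' b' hab'
  rw [ha', hb'] at h2
  exact hK y hy a b (hnk a ha) (hnk b hb) _ _ h1 h2

theorem iso_refl {V : Type} (y : V → V → D) : Iso y y := ⟨Equiv.refl _, fun _ _ => rfl⟩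

theorem iso_symm {V V' : Type} {y : V → V → D} {y' : V' → V' → D} (h : Iso y y') : Iso y' y := by
  obtain ⟨g, hg⟩ := h
  refine ⟨g.symm, fun a b => ?_⟩
  rw [← hg, g.apply_symm_apply, g.apply_symm_apply]

theorem iso_trans {V V' V'' : Type} {y : V → V → D} {y' : V' → V' → D} {y'' : V'' → V'' → D}
    (h : Iso y y') (h' : Iso y' y'') : Iso y y'' := by
  obtain ⟨g, hg⟩ := h
  obtain ⟨g', hg'⟩ := h'
  exact ⟨g.trans g', fun a b => by rw [← hg, ← hg']; rfl⟩

section Meas

variable [MeasurableSpace D]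

/-- measurable conditions -/
structure Cls.Meas (K : Cls D ι) : Prop where
  L1 : MeasurableSet K.L1
  L : MeasurableSet K.L
  Dm : ∀ i, MeasurableSet (K.Dm i)
  W : ∀ i, MeasurableSet (K.W i)

theorem meas_mem [Countable ι] {K : Cls D ι} (hK : K.Meas) :
    MeasurableSet {y : ℕ → ℕ → D | Mem K y} := by
  have h1 : ∀ i j, Measurable fun y : ℕ → ℕ → D => y i j := fun i j =>
    (measurable_pi_apply j).comp (measurable_pi_apply i)
  have h2 : {y : ℕ → ℕ → D | Mem K y} = {y | (∀ a, y a a ∈ K.L1) ∧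
      (∀ a b, a ≠ b → (y a a, y b b, ta y a b) ∈ K.L) ∧
      ∀ i a, y a a ∈ K.Dm i → ∃ b, b ≠ a ∧ ta y a b ∈ K.W i} := by
    ext y
    exact ⟨fun h => ⟨h.diag, h.pair, h.dem⟩, fun h => ⟨h.1, h.2.1, h.2.2⟩⟩
  rw [h2, measurableSet_setOfPred]
  have h3 : ∀ {Ω : Type} [MeasurableSpace Ω] {f : (ℕ → ℕ → D) → Ω} {A : Set Ω}, Measurable f →
      MeasurableSet A → Measurable fun y => f y ∈ A := fun hf hA =>
    measurableSet_setOfPred.1 (hf hA)
  refine (Measurable.forall fun a => h3 (h1 a a) hK.L1).and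
    ((Measurable.forall fun a => Measurable.forall fun b => measurable_const.imp
      (h3 ((h1 a a).prodMk ((h1 b b).prodMk ((h1 a b).prodMk (h1 b a)))) hK.L)).and
    (Measurable.forall fun i => Measurable.forall fun a => (h3 (h1 a a) (hK.Dm i)).imp
      (Measurable.exists fun b => measurable_const.and
        (h3 ((h1 a b).prodMk (h1 b a)) (hK.W i)))))

variable [StandardBorelSpace D]

theorem meas_kg {Ω : Type} [MeasurableSpace Ω] {f : Ω → ℕ → ℕ → D} (hf : Measurable f) (c : ℕ) :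
    Measurable fun w => Kg (f w) c := by
  have h1 : ∀ i j, Measurable fun w => f w i j := fun i j =>
    (measurable_pi_apply j).comp ((measurable_pi_apply i).comp hf)
  unfold Kg
  exact Measurable.forall fun c' => measurable_const.imp ((h1 c' c').eq (h1 c c)).not

theorem meas_pr {Ω : Type} [MeasurableSpace Ω] {f f' : Ω → ℕ → ℕ → D} (hf : Measurable f)
    (hf' : Measurable f') (a a' : ℕ) : Measurable fun w => Pr (f w) (f' w) a a' := by
  have h1 : ∀ i j, Measurable fun w => f w i j := fun i j =>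
    (measurable_pi_apply j).comp ((measurable_pi_apply i).comp hf)
  have h1' : ∀ i j, Measurable fun w => f' w i j := fun i j =>
    (measurable_pi_apply j).comp ((measurable_pi_apply i).comp hf')
  unfold Pr
  refine ((h1 a a).eq (h1' a' a')).and (Measurable.forall fun c => Measurable.forall fun c' =>
    (meas_kg hf c).imp ((meas_kg hf' c').imp (((h1 c c).eq (h1' c' c')).imp
      (measurable_const.imp (measurable_const.imp ?_)))))
  exact ((h1 a c).prodMk (h1 c a)).eq ((h1' a' c').prodMk (h1' c' a'))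

/-- the dichotomy for sets of structures whose isomorphism types are given by the profiles -/
theorem dich_thin {X : Set (ℕ → ℕ → D)} (hX : MeasurableSet X)
    (hT : ∀ y ∈ X, ∀ y' ∈ X, (Iso y y' ↔ Cnt (Pr y y'))) :
    (∃ D' : Set (ℕ → ℕ → D), D'.Countable ∧ ∀ y : ℕ → ℕ → D, y ∈ X → ∃ d ∈ D', Iso y d) ∨
      ∃ F : (ℕ → Bool) → ℕ → ℕ → D, Measurable F ∧ (∀ S, F S ∈ X) ∧
        ∀ S S', Iso (F S) (F S') → S = S' := by
  rcases X.eq_empty_or_nonempty with hem | hne
  · left
    refine ⟨∅, Set.countable_empty, fun y hy => ?_⟩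
    rw [hem] at hy
    exact hy.elim
  have hstd : StandardBorelSpace X := hX.standardBorel
  have hne' : Nonempty X := hne.to_subtype
  let _ := upgradeStandardBorel X
  obtain ⟨φ, hφ, hφs⟩ := PolishSpace.exists_nat_nat_continuous_surjective X
  let E : Setoid (ℕ → ℕ) := {
    r := fun a b => Iso (φ a : ℕ → ℕ → D) (φ b : ℕ → ℕ → D)
    iseqv := ⟨fun a => iso_refl _, fun h => iso_symm h, fun h h' => iso_trans h h'⟩ }
  have hEm : MeasurableSet {p : (ℕ → ℕ) × (ℕ → ℕ) | E p.1 p.2} := by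
    have h2 : {p : (ℕ → ℕ) × (ℕ → ℕ) | E p.1 p.2} =
        {p | Cnt (Pr (φ p.1 : ℕ → ℕ → D) (φ p.2))} := by
      ext p
      exact hT _ (φ p.1).2 _ (φ p.2).2
    rw [h2, measurableSet_setOfPred]
    refine meas_cnt fun a a' => meas_pr ?_ ?_ a a'
    · exact measurable_subtype_coe.comp (hφ.measurable.comp measurable_fst)
    · exact measurable_subtype_coe.comp (hφ.measurable.comp measurable_snd)
  rcases Pool.Agent.H73.HV.silver E hEm with hc | ⟨F, hF, hFE⟩
  · left
    have : Countable (Quotient E) := hc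
    refine ⟨Set.range fun q : Quotient E => (φ q.out : ℕ → ℕ → D), Set.countable_range _,
      fun y hy => ?_⟩
    obtain ⟨a, ha⟩ := hφs ⟨y, hy⟩
    refine ⟨_, ⟨Quotient.mk E a, rfl⟩, ?_⟩
    have h2 : E a (Quotient.mk E a).out := E.iseqv.symm (Quotient.mk_out a)
    have h3 : Iso (φ a : ℕ → ℕ → D) (φ (Quotient.mk E a).out : ℕ → ℕ → D) := h2
    rw [ha] at h3
    exact h3
  · right
    refine ⟨fun u => (φ (F u) : ℕ → ℕ → D),
      measurable_subtype_coe.comp (hφ.measurable.comp hF.measurable), fun u => (φ (F u)).2,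
      fun u v h => ?_⟩
    by_contra huv
    exact hFE u v huv h

/-- the dichotomy for classes -/
theorem dich [Countable ι] {K : Cls D ι} (hK : K.Meas) :
    (∃ D' : Set (ℕ → ℕ → D), D'.Countable ∧ ∀ y : ℕ → ℕ → D, Mem K y → ∃ d ∈ D', Iso y d) ∨
      ∃ F : (ℕ → Bool) → ℕ → ℕ → D, Measurable F ∧ (∀ S, Mem K (F S)) ∧
        ∀ S S', Iso (F S) (F S') → S = S' := by
  by_cases hT : Thin K
  · exact dich_thin (meas_mem hK) fun y hy y' hy' => iso_iff hT hy hy'
  · right
    unfold Thin at hT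
    push Not at hT
    obtain ⟨y, hy, a, b, ha, hb, z1, z2, h1, h2, h12⟩ := hT
    exact perfect hy ha hb h1 h2 h12

end Meas

end Pool.Agent.H71.TV
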