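import Pool.Agent.H71.TV.B2

/-!
# Vaught's conjecture for sentences with two variables
-/

set_option autoImplicit false

open Set

namespace Pool.Agent.H71.TV

/-- formulas with two variables -/
inductive Formula (C : Type) [MeasurableSpace C] : Type
  | label (B : Set C) (hB : MeasurableSet B) (i j : Fin 2) : Formula C
  | equal (i j : Fin 2) : Formula C
  | not (φ : Formula C) : Formula C
  | conj (φ : ℕ → Formula C) : Formula C
  | ex (i : Fin 2) (φ : Formula C) : Formula C

variable {C : Type} [MeasurableSpace C]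

/-- truth -/
def Holds (x : (Fin 2 → ℕ) → C) : Formula C → (Fin 2 → ℕ) → Prop
  | .label B _ i j, v => x ![v i, v j] ∈ B
  | .equal i j, v => v i = v j
  | .not φ, v => ¬ Holds x φ v
  | .conj φ, v => ∀ n, Holds x (φ n) v
  | .ex i φ, v => ∃ a, Holds x φ (Function.update v i a)

/-- the formulas below a formula -/
def subs : Formula C → Set (Formula C)
  | .label B hB i j => {.label B hB i j}
  | .equal i j => {.equal i j}
  | .not φ => insert (.not φ) (subs φ)
  | .conj φ => insert (.conj φ) (⋃ n, subs (φ n))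
  | .ex i φ => insert (.ex i φ) (subs φ)

theorem self_mem (φ : Formula C) : φ ∈ subs φ := by
  cases φ with
  | label B hB i j => exact rfl
  | equal i j => exact rfl
  | not φ => exact Set.mem_insert _ _
  | conj φ => exact Set.mem_insert _ _
  | ex i φ => exact Set.mem_insert _ _

theorem subs_countable (φ : Formula C) : (subs φ).Countable := by
  induction φ with
  | label B hB i j => exact Set.countable_singleton _
  | equal i j => exact Set.countable_singleton _
  | not φ ih => exact ih.insert _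
  | conj φ ih => exact (Set.countable_iUnion ih).insert _
  | ex i φ ih => exact ih.insert _

/-- closed under taking parts -/
structure Clo (T : Set (Formula C)) : Prop where
  not : ∀ φ, Formula.not φ ∈ T → φ ∈ T
  conj : ∀ φ, Formula.conj φ ∈ T → ∀ n, φ n ∈ T
  ex : ∀ i φ, Formula.ex i φ ∈ T → φ ∈ T

theorem subs_clo (φ : Formula C) : Clo (subs φ) := by
  induction φ with
  | label B hB i j =>
    refine ⟨fun φ h => ?_, fun φ h => ?_, fun i φ h => ?_⟩ <;> exact absurd h (by simp [subs])
  | equal i j =>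
    refine ⟨fun φ h => ?_, fun φ h => ?_, fun i φ h => ?_⟩ <;> exact absurd h (by simp [subs])
  | not φ ih =>
    refine ⟨fun ψ h => ?_, fun ψ h n => ?_, fun i ψ h => ?_⟩
    · rcases h with h | h
      · injection h with h
        rw [h]
        exact Or.inr (self_mem _)
      · exact Or.inr (ih.not _ h)
    · rcases h with h | h
      · exact absurd h (by simp)
      · exact Or.inr (ih.conj _ h n)
    · rcases h with h | h
      · exact absurd h (by simp)
      · exact Or.inr (ih.ex _ _ h)
  | conj φ ih =>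
    refine ⟨fun ψ h => ?_, fun ψ h n => ?_, fun i ψ h => ?_⟩
    · rcases h with h | h
      · exact absurd h (by simp)
      · obtain ⟨m, hm⟩ := Set.mem_iUnion.1 h
        exact Or.inr (Set.mem_iUnion.2 ⟨m, (ih m).not _ hm⟩)
    · rcases h with h | h
      · injection h with h
        rw [h]
        exact Or.inr (Set.mem_iUnion.2 ⟨n, self_mem _⟩)
      · obtain ⟨m, hm⟩ := Set.mem_iUnion.1 h
        exact Or.inr (Set.mem_iUnion.2 ⟨m, (ih m).conj _ hm n⟩)
    · rcases h with h | h
      · exact absurd h (by simp)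
      · obtain ⟨m, hm⟩ := Set.mem_iUnion.1 h
        exact Or.inr (Set.mem_iUnion.2 ⟨m, (ih m).ex _ _ hm⟩)
  | ex i φ ih =>
    refine ⟨fun ψ h => ?_, fun ψ h n => ?_, fun i ψ h => ?_⟩
    · rcases h with h | h
      · exact absurd h (by simp)
      · exact Or.inr (ih.not _ h)
    · rcases h with h | h
      · exact absurd h (by simp)
      · exact Or.inr (ih.conj _ h n)
    · rcases h with h | h
      · injection h with h1 h2
        rw [h2]
        exact Or.inr (self_mem _)
      · exact Or.inr (ih.ex _ _ h)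

section Ev

variable (T : Set (Formula C))

/-- the labels of the expansion -/
abbrev DT : Type := C × (T → Bool)

variable {T}

/-- the value of a formula at a label -/
def ev (s : DT T) (ψ : Formula C) : Prop := ∃ h : ψ ∈ T, s.2 ⟨ψ, h⟩ = true

/-- the label of the pair with coordinates `i` and `j` -/
def pick (p q s s' : DT T) (i j : Fin 2) : DT T :=
  if i = 0 then (if j = 0 then p else s) else (if j = 0 then s' else q)

/-- the conditions on labels -/
def Cond (d : Prop) (p q s s' : DT T) : Formula C → Prop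
  | .label B hB i j => ev s (.label B hB i j) ↔ (pick p q s s' i j).1 ∈ B
  | .equal i j => ev s (.equal i j) ↔ (i = j ∨ d)
  | .not θ => ev s (.not θ) ↔ ¬ ev s θ
  | .conj θ => ev s (.conj θ) ↔ ∀ n, ev s (θ n)
  | .ex i θ => (ev s (.ex i θ) ↔ ev (if i = 0 then q else p) (.ex i θ)) ∧
      (ev s θ → ev s (.ex i θ))

theorem cond_label (d : Prop) (p q s s' : DT T) (B : Set C) (hB : MeasurableSet B) (i j : Fin 2) :
    Cond d p q s s' (.label B hB i j) =
      (ev s (.label B hB i j) ↔ (pick p q s s' i j).1 ∈ B) := rfl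

theorem cond_equal (d : Prop) (p q s s' : DT T) (i j : Fin 2) :
    Cond d p q s s' (.equal i j) = (ev s (.equal i j) ↔ (i = j ∨ d)) := rfl

theorem cond_not (d : Prop) (p q s s' : DT T) (θ : Formula C) :
    Cond d p q s s' (.not θ) = (ev s (.not θ) ↔ ¬ ev s θ) := rfl

theorem cond_conj (d : Prop) (p q s s' : DT T) (θ : ℕ → Formula C) :
    Cond d p q s s' (.conj θ) = (ev s (.conj θ) ↔ ∀ n, ev s (θ n)) := rfl

theorem cond_ex (d : Prop) (p q s s' : DT T) (i : Fin 2) (θ : Formula C) :
    Cond d p q s s' (.ex i θ) = ((ev s (.ex i θ) ↔ ev (if i = 0 then q else p) (.ex i θ)) ∧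
      (ev s θ → ev s (.ex i θ))) := rfl

/-- elements which need a witness -/
def dmF : Formula C → Set (DT T)
  | .ex i θ => {p | ev p (.ex i θ) ∧ ¬ ev p θ}
  | _ => ∅

/-- the witnesses -/
def wF : Formula C → Set (DT T × DT T)
  | .ex i θ => {z | ev (if i = 0 then z.2 else z.1) θ}
  | _ => ∅

variable (T)

/-- the class of expansions of the models of `φ` -/
def KT (φ : Formula C) : Cls (DT T) T where
  L1 := {p | (∀ ψ : T, Cond True p p p p ψ.1) ∧ ev p φ}
  L := {t | (∀ ψ : T, Cond False t.1 t.2.1 t.2.2.1 t.2.2.2 ψ.1) ∧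
    (∀ ψ : T, Cond False t.2.1 t.1 t.2.2.2 t.2.2.1 ψ.1) ∧ ev t.2.2.1 φ ∧ ev t.2.2.2 φ}
  Dm := fun ψ => dmF ψ.1
  W := fun ψ => wF ψ.1
  sym := fun _ _ _ h => ⟨h.2.1, h.1, h.2.2.2, h.2.2.1⟩

variable {T}

open Classical in
/-- the expansion of a structure -/
noncomputable def expa (T : Set (Formula C)) (x : (Fin 2 → ℕ) → C) (a b : ℕ) : DT T :=
  (x ![a, b], fun ψ => decide (Holds x ψ.1 ![a, b]))

/-- the reduct of a structure -/
def red (y : ℕ → ℕ → DT T) (v : Fin 2 → ℕ) : C := (y (v 0) (v 1)).1

theorem red_expa (x : (Fin 2 → ℕ) → C) : red (expa T x) = x := by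
  funext v
  change x ![v 0, v 1] = x v
  congr 1
  funext i
  fin_cases i <;> rfl

theorem expa_snd (x : (Fin 2 → ℕ) → C) (a b : ℕ) (ψ : T) :
    (expa T x a b).2 ψ = true ↔ Holds x ψ.1 ![a, b] := by
  classical
  exact decide_eq_true_iff

theorem ev_expa {x : (Fin 2 → ℕ) → C} {a b : ℕ} {ψ : Formula C} (h : ψ ∈ T) :
    ev (expa T x a b) ψ ↔ Holds x ψ ![a, b] := by
  constructor
  · rintro ⟨_, h2⟩
    exact (expa_snd x a b _).1 h2
  · intro h2
    exact ⟨h, (expa_snd x a b _).2 h2⟩

theorem upd0 (a b c : ℕ) : Function.update ![a, b] 0 c = ![c, b] := by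
  funext i
  fin_cases i <;> rfl

theorem upd1 (a b c : ℕ) : Function.update ![a, b] 1 c = ![a, c] := by
  funext i
  fin_cases i <;> rfl

theorem cases2 (i : Fin 2) : i = 0 ∨ i = 1 := by
  fin_cases i
  · exact Or.inl rfl
  · exact Or.inr rfl

/-- the expansion satisfies the conditions -/
theorem cond_expa (hT : Clo T) (x : (Fin 2 → ℕ) → C) (a b : ℕ) {ψ : Formula C} (h : ψ ∈ T) :
    Cond (a = b) (expa T x a a) (expa T x b b) (expa T x a b) (expa T x b a) ψ := by
  cases ψ with
  | label B hB i j =>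
    rw [cond_label, ev_expa h]
    rcases cases2 i with rfl | rfl <;> rcases cases2 j with rfl | rfl <;> exact Iff.rfl
  | equal i j =>
    rw [cond_equal, ev_expa h]
    rcases cases2 i with rfl | rfl <;> rcases cases2 j with rfl | rfl
    · exact ⟨fun _ => Or.inl rfl, fun _ => rfl⟩
    · exact ⟨fun e => Or.inr e, fun e => e.resolve_left (by decide)⟩
    · exact ⟨fun e => Or.inr e.symm, fun e => (e.resolve_left (by decide)).symm⟩
    · exact ⟨fun _ => Or.inl rfl, fun _ => rfl⟩
  | not θ =>
    rw [cond_not, ev_expa h, ev_expa (hT.not _ h)]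
    exact Iff.rfl
  | conj θ =>
    rw [cond_conj, ev_expa h]
    refine forall_congr' fun n => ?_
    rw [ev_expa (hT.conj _ h n)]
  | ex i θ =>
    rw [cond_ex, ev_expa h]
    rcases cases2 i with rfl | rfl
    · rw [if_pos rfl, ev_expa h, ev_expa (hT.ex _ _ h)]
      refine ⟨?_, fun h2 => ⟨a, ?_⟩⟩
      · change (∃ c, _) ↔ ∃ c, _
        simp only [upd0]
      · rw [upd0]
        exact h2
    · rw [if_neg (by decide), ev_expa h, ev_expa (hT.ex _ _ h)]
      refine ⟨?_, fun h2 => ⟨b, ?_⟩⟩
      · change (∃ c, _) ↔ ∃ c, _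
        simp only [upd1]
      · rw [upd1]
        exact h2

theorem mem_expa (hT : Clo T) {φ : Formula C} (hφ : φ ∈ T) {x : (Fin 2 → ℕ) → C}
    (hx : ∀ v, Holds x φ v) : Mem (KT T φ) (expa T x) := by
  refine ⟨fun a => ⟨fun ψ => ?_, (ev_expa hφ).2 (hx _)⟩, fun a b hab =>
    ⟨fun ψ => ?_, fun ψ => ?_, (ev_expa hφ).2 (hx _), (ev_expa hφ).2 (hx _)⟩, ?_⟩
  · have h := cond_expa hT x a a ψ.2
    rw [eq_self_iff_true] at h
    exact h
  · have h := cond_expa hT x a b ψ.2
    rw [eq_false hab] at h
    exact h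
  · have h := cond_expa hT x b a ψ.2
    rw [eq_false (Ne.symm hab)] at h
    exact h
  · rintro ⟨ψ, hψ⟩ a ha
    cases ψ with
    | label B hB i j => exact ha.elim
    | equal i j => exact ha.elim
    | not θ => exact ha.elim
    | conj θ => exact ha.elim
    | ex i θ =>
      obtain ⟨h1, h2⟩ := ha
      rw [ev_expa hψ] at h1
      rw [ev_expa (hT.ex _ _ hψ)] at h2
      obtain ⟨c, hc⟩ := h1
      rcases cases2 i with rfl | rfl
      · rw [upd0] at hc
        refine ⟨c, fun e => h2 (by rw [e] at hc; exact hc), ?_⟩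
        exact (ev_expa (hT.ex _ _ hψ)).2 hc
      · rw [upd1] at hc
        refine ⟨c, fun e => h2 (by rw [e] at hc; exact hc), ?_⟩
        exact (ev_expa (hT.ex _ _ hψ)).2 hc

theorem cond_mem {φ : Formula C} {y : ℕ → ℕ → DT T} (hy : Mem (KT T φ) y) (a b : ℕ)
    {ψ : Formula C} (h : ψ ∈ T) : Cond (a = b) (y a a) (y b b) (y a b) (y b a) ψ := by
  by_cases hab : a = b
  · subst hab
    rw [eq_self_iff_true]
    exact (hy.diag a).1 ⟨ψ, h⟩
  · rw [eq_false hab]
    exact (hy.pair a b hab).1 ⟨ψ, h⟩

/-- the labels are truth values -/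
theorem truth (hT : Clo T) {φ : Formula C} {y : ℕ → ℕ → DT T} (hy : Mem (KT T φ) y)
    (ψ : Formula C) (h : ψ ∈ T) : ∀ a b, ev (y a b) ψ ↔ Holds (red y) ψ ![a, b] := by
  induction ψ with
  | label B hB i j =>
    intro a b
    have h1 := cond_mem hy a b h
    rw [cond_label] at h1
    rw [h1]
    rcases cases2 i with rfl | rfl <;> rcases cases2 j with rfl | rfl <;> exact Iff.rfl
  | equal i j =>
    intro a b
    have h1 := cond_mem hy a b h
    rw [cond_equal] at h1
    rw [h1]
    rcases cases2 i with rfl | rfl <;> rcases cases2 j with rfl | rfl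
    · exact ⟨fun _ => rfl, fun _ => Or.inl rfl⟩
    · exact ⟨fun e => e.resolve_left (by decide), fun e => Or.inr e⟩
    · exact ⟨fun e => (e.resolve_left (by decide)).symm, fun e => Or.inr e.symm⟩
    · exact ⟨fun _ => rfl, fun _ => Or.inl rfl⟩
  | not θ ih =>
    intro a b
    have h1 := cond_mem hy a b h
    rw [cond_not] at h1
    rw [h1, ih (hT.not _ h)]
    exact Iff.rfl
  | conj θ ih =>
    intro a b
    have h1 := cond_mem hy a b h
    rw [cond_conj] at h1
    rw [h1]
    exact forall_congr' fun n => ih n (hT.conj _ h n) a b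
  | ex i θ ih =>
    have hθ := hT.ex _ _ h
    have ih' := ih hθ
    intro a b
    rcases cases2 i with rfl | rfl
    · have h1 : ∀ a b, (ev (y a b) (.ex 0 θ) ↔ ev (y b b) (.ex 0 θ)) ∧
          (ev (y a b) θ → ev (y a b) (.ex 0 θ)) := fun a b => cond_mem hy a b h
      have h2 : Holds (red y) (.ex 0 θ) ![a, b] ↔ ∃ c, ev (y c b) θ := by
        change (∃ c, _) ↔ _
        refine exists_congr fun c => ?_
        rw [upd0, ih']
      rw [h2, (h1 a b).1]
      constructor
      · intro h3
        by_cases h4 : ev (y b b) θ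
        · exact ⟨b, h4⟩
        · obtain ⟨c, _, hc⟩ := hy.dem ⟨_, h⟩ b ⟨h3, h4⟩
          exact ⟨c, hc⟩
      · rintro ⟨c, hc⟩
        exact (h1 c b).1.1 ((h1 c b).2 hc)
    · have h1 : ∀ a b, (ev (y a b) (.ex 1 θ) ↔ ev (y a a) (.ex 1 θ)) ∧
          (ev (y a b) θ → ev (y a b) (.ex 1 θ)) := fun a b => cond_mem hy a b h
      have h2 : Holds (red y) (.ex 1 θ) ![a, b] ↔ ∃ c, ev (y a c) θ := by
        change (∃ c, _) ↔ _
        refine exists_congr fun c => ?_
        rw [upd1, ih']
      rw [h2, (h1 a b).1]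
      constructor
      · intro h3
        by_cases h4 : ev (y a a) θ
        · exact ⟨a, h4⟩
        · obtain ⟨c, _, hc⟩ := hy.dem ⟨_, h⟩ a ⟨h3, h4⟩
          exact ⟨c, hc⟩
      · rintro ⟨c, hc⟩
        exact (h1 a c).1.1 ((h1 a c).2 hc)

theorem eta2 (v : Fin 2 → ℕ) : ![v 0, v 1] = v := by
  funext i
  fin_cases i <;> rfl

theorem models_red (hT : Clo T) {φ : Formula C} (hφ : φ ∈ T) {y : ℕ → ℕ → DT T}
    (hy : Mem (KT T φ) y) (v : Fin 2 → ℕ) : Holds (red y) φ v := by
  have h1 := truth hT hy φ hφ (v 0) (v 1)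
  rw [eta2] at h1
  rw [← h1]
  by_cases hv : v 0 = v 1
  · rw [← hv]
    exact (hy.diag (v 0)).2
  · exact (hy.pair (v 0) (v 1) hv).2.2.1

theorem expa_red (hT : Clo T) {φ : Formula C} {y : ℕ → ℕ → DT T} (hy : Mem (KT T φ) y) :
    expa T (red y) = y := by
  funext a b
  refine Prod.ext rfl (funext fun ψ => ?_)
  have h1 := truth hT hy ψ.1 ψ.2 a b
  refine Bool.eq_iff_iff.2 ?_
  constructor
  · intro h2
    obtain ⟨_, h3⟩ := h1.2 ((expa_snd _ a b ψ).1 h2)
    exact h3
  · intro h2
    exact (expa_snd _ a b ψ).2 (h1.1 ⟨ψ.2, h2⟩)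

theorem holds_iso {x x' : (Fin 2 → ℕ) → C} (g : Equiv.Perm ℕ)
    (hg : ∀ v : Fin 2 → ℕ, x' (g ∘ v) = x v) (ψ : Formula C) :
    ∀ v, Holds x' ψ (g ∘ v) ↔ Holds x ψ v := by
  induction ψ with
  | label B hB i j =>
    intro v
    have h1 := hg ![v i, v j]
    have h2 : g ∘ ![v i, v j] = ![(g ∘ v) i, (g ∘ v) j] := by
      funext k
      fin_cases k <;> rfl
    rw [h2] at h1
    change x' _ ∈ B ↔ x _ ∈ B
    rw [h1]
  | equal i j => exact fun v => g.injective.eq_iff
  | not θ ih => exact fun v => not_congr (ih v)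
  | conj θ ih => exact fun v => forall_congr' fun n => ih n v
  | ex i θ ih =>
    intro v
    have h1 : ∀ a, Function.update (g ∘ v) i (g a) = g ∘ Function.update v i a := by
      intro a
      exact (Function.comp_update g v i a).symm
    constructor
    · rintro ⟨a, ha⟩
      refine ⟨g.symm a, (ih _).1 ?_⟩
      rw [← h1, g.apply_symm_apply]
      exact ha
    · rintro ⟨a, ha⟩
      refine ⟨g a, ?_⟩
      rw [h1]
      exact (ih _).2 ha

theorem iso_expa {x x' : (Fin 2 → ℕ) → C} (g : Equiv.Perm ℕ)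
    (hg : ∀ v : Fin 2 → ℕ, x' (g ∘ v) = x v) : Iso (expa T x) (expa T x') := by
  refine ⟨g, fun a b => ?_⟩
  have h2 : ![g a, g b] = g ∘ ![a, b] := by
    funext k
    fin_cases k <;> rfl
  refine Prod.ext ?_ (funext fun ψ => ?_)
  · change x' ![g a, g b] = x ![a, b]
    rw [h2, hg]
  · refine Bool.eq_iff_iff.2 ?_
    have h3 := holds_iso g hg ψ.1 ![a, b]
    rw [← h2] at h3
    constructor
    · intro h4
      exact (expa_snd _ a b ψ).2 (h3.1 ((expa_snd _ _ _ ψ).1 h4))
    · intro h4
      exact (expa_snd _ _ _ ψ).2 (h3.2 ((expa_snd _ a b ψ).1 h4))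

theorem iso_red {y y' : ℕ → ℕ → DT T} (h : Iso y y') :
    ∃ g : Equiv.Perm ℕ, ∀ v : Fin 2 → ℕ, red y' (g ∘ v) = red y v := by
  obtain ⟨g, hg⟩ := h
  exact ⟨g, fun v => congrArg Prod.fst (hg (v 0) (v 1))⟩

theorem meas_ev (ψ : Formula C) : Measurable fun s : DT T => ev s ψ := by
  unfold ev
  by_cases h : ψ ∈ T
  · have h1 : (fun s : DT T => ∃ h : ψ ∈ T, s.2 ⟨ψ, h⟩ = true) =
        fun s : DT T => s.2 ⟨ψ, h⟩ = true := by
      funext s
      exact propext ⟨fun ⟨_, h2⟩ => h2, fun h2 => ⟨h, h2⟩⟩
    rw [h1]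
    exact ((measurable_pi_apply (X := fun _ : T => Bool) ⟨ψ, h⟩).comp measurable_snd).eq
      measurable_const
  · have h1 : (fun s : DT T => ∃ h : ψ ∈ T, s.2 ⟨ψ, h⟩ = true) = fun _ => False := by
      funext s
      exact propext ⟨fun ⟨h2, _⟩ => h h2, fun h2 => h2.elim⟩
    rw [h1]
    exact measurable_const

theorem meas_cond {Ω : Type} [MeasurableSpace Ω] (d : Prop) {p q s s' : Ω → DT T}
    (hp : Measurable p) (hq : Measurable q) (hs : Measurable s) (hs' : Measurable s')
    (ψ : Formula C) : Measurable fun w => Cond d (p w) (q w) (s w) (s' w) ψ := by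
  have he : ∀ {f : Ω → DT T}, Measurable f → ∀ ψ, Measurable fun w => ev (f w) ψ :=
    fun hf ψ => (meas_ev ψ).comp hf
  cases ψ with
  | label B hB i j =>
    refine (he hs _).iff ?_
    have h1 : Measurable fun w => pick (p w) (q w) (s w) (s' w) i j := by
      unfold pick
      split_ifs
      · exact hp
      · exact hs
      · exact hs'
      · exact hq
    exact measurableSet_setOfPred.1 ((measurable_fst.comp h1) hB)
  | equal i j => exact (he hs _).iff measurable_const
  | not θ => exact (he hs _).iff (he hs _).not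
  | conj θ => exact (he hs _).iff (Measurable.forall fun n => he hs _)
  | ex i θ =>
    refine ((he hs _).iff ?_).and ((he hs _).imp (he hs _))
    split_ifs
    · exact he hq _
    · exact he hp _

theorem meas_KT [Countable T] (φ : Formula C) : (KT T φ).Meas := by
  refine ⟨?_, ?_, ?_, ?_⟩
  · refine measurableSet_setOfPred.2 ((Measurable.forall fun ψ => ?_).and (meas_ev _))
    exact meas_cond True measurable_id measurable_id measurable_id measurable_id ψ.1
  · refine measurableSet_setOfPred.2 ((Measurable.forall fun ψ => ?_).and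
      ((Measurable.forall fun ψ => ?_).and (((meas_ev _).comp ?_).and ((meas_ev _).comp ?_))))
    · exact meas_cond False measurable_fst (measurable_fst.comp measurable_snd)
        (measurable_fst.comp (measurable_snd.comp measurable_snd))
        (measurable_snd.comp (measurable_snd.comp measurable_snd)) ψ.1
    · exact meas_cond False (measurable_fst.comp measurable_snd) measurable_fst
        (measurable_snd.comp (measurable_snd.comp measurable_snd))
        (measurable_fst.comp (measurable_snd.comp measurable_snd)) ψ.1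
    · exact measurable_fst.comp (measurable_snd.comp measurable_snd)
    · exact measurable_snd.comp (measurable_snd.comp measurable_snd)
  · rintro ⟨ψ, hψ⟩
    cases ψ with
    | label B hB i j => exact MeasurableSet.empty
    | equal i j => exact MeasurableSet.empty
    | not θ => exact MeasurableSet.empty
    | conj θ => exact MeasurableSet.empty
    | ex i θ => exact measurableSet_setOfPred.2 ((meas_ev _).and (meas_ev _).not)
  · rintro ⟨ψ, hψ⟩
    cases ψ with
    | label B hB i j => exact MeasurableSet.empty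
    | equal i j => exact MeasurableSet.empty
    | not θ => exact MeasurableSet.empty
    | conj θ => exact MeasurableSet.empty
    | ex i θ =>
      refine measurableSet_setOfPred.2 ?_
      change Measurable fun z : DT T × DT T => ev (if i = 0 then z.2 else z.1) θ
      split_ifs
      · exact (meas_ev _).comp measurable_snd
      · exact (meas_ev _).comp measurable_fst

end Ev

/-- Vaught's conjecture for sentences with two variables -/
theorem two_variables [StandardBorelSpace C] (φ : Formula C) :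
    (∃ D' : Set ((Fin 2 → ℕ) → C), D'.Countable ∧ ∀ x, (∀ v, Holds x φ v) →
      ∃ d ∈ D', ∃ g : Equiv.Perm ℕ, ∀ v : Fin 2 → ℕ, d (g ∘ v) = x v) ∨
    ∃ F : (ℕ → Bool) → (Fin 2 → ℕ) → C, Measurable F ∧ (∀ S v, Holds (F S) φ v) ∧
      ∀ S S', (∃ g : Equiv.Perm ℕ, ∀ v : Fin 2 → ℕ, F S' (g ∘ v) = F S v) → S = S' := by
  have hT := subs_clo φ
  have hφ := self_mem φ
  have hc : Countable (subs φ) := (subs_countable φ).to_subtype
  rcases dich (meas_KT (T := subs φ) φ) with ⟨D', hD', h⟩ | ⟨F, hF, hFK, hFi⟩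
  · left
    refine ⟨red '' D', hD'.image _, fun x hx => ?_⟩
    obtain ⟨d, hd, hi⟩ := h _ (mem_expa hT hφ hx)
    refine ⟨red d, ⟨d, hd, rfl⟩, ?_⟩
    have h1 := iso_red hi
    rw [red_expa] at h1
    exact h1
  · right
    refine ⟨fun S => red (F S), ?_, fun S v => models_red hT hφ (hFK S) v, ?_⟩
    · refine measurable_pi_lambda _ fun v => ?_
      exact measurable_fst.comp ((measurable_pi_apply (v 1)).comp
        ((measurable_pi_apply (v 0)).comp hF))
    · rintro S S' ⟨g, hg⟩
      apply hFi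
      have h1 := iso_expa (T := subs φ) g hg
      rw [expa_red hT (hFK S), expa_red hT (hFK S')] at h1
      exact h1

end Pool.Agent.H71.TV
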