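import Pool.Agent.H71.TV.B2

/-!
# Two-variable classes of linearly ordered structures
-/

set_option autoImplicit false

open Set

namespace Pool.Agent.H71.TV

variable {D ι : Type}

/-- the relations of `O` are strict partial orders, the first one is linear -/
structure Ord {V : Type} (O : ℕ → Set D) (y : V → V → D) : Prop where
  irr : ∀ k a, y a a ∉ O k
  tr : ∀ k a b c, y a b ∈ O k → y b c ∈ O k → y a c ∈ O k
  tot : ∀ a b, a ≠ b → y a b ∈ O 0 ∨ y b a ∈ O 0

/-- labels which may be repeated -/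
def NKO (K : Cls D ι) (O : ℕ → Set D) (p : D) : Prop :=
  ∃ z, (p, p, z) ∈ K.L ∧ z.1 ∈ O 0 ∧ ∀ k, ¬ (z.1 ∈ O k ∧ z.2 ∈ O k)

/-- the points of the coding orders -/
abbrev Ix : Type := ℚ ⊕ (Σ n : ℕ, Fin (n + 2))

/-- the real position -/
noncomputable def rr (S : ℕ → Bool) : Ix → ℝ
  | .inl q => q
  | .inr x => √2 + (Nat.pair x.1 (if S x.1 = true then 0 else x.2.1) : ℕ)

/-- the second coordinate -/
def tt : Ix → ℕ
  | .inl _ => 0
  | .inr x => x.2.1

/-- the coding order -/
def lt (S : ℕ → Bool) (i j : Ix) : Prop := rr S i < rr S j ∨ (rr S i = rr S j ∧ tt i < tt j)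

theorem lt_trans' {S : ℕ → Bool} {i j l : Ix} (h : lt S i j) (h' : lt S j l) : lt S i l := by
  rcases h with h | ⟨h, h2⟩ <;> rcases h' with h' | ⟨h', h2'⟩
  · exact Or.inl (h.trans h')
  · exact Or.inl (h'.symm ▸ h)
  · exact Or.inl (h ▸ h')
  · exact Or.inr ⟨h.trans h', h2.trans h2'⟩

theorem lt_irrefl' {S : ℕ → Bool} {i : Ix} (h : lt S i i) : False := by
  rcases h with h | ⟨_, h⟩
  · exact lt_irrefl _ h
  · exact lt_irrefl _ h

theorem lt_asymm' {S : ℕ → Bool} {i j : Ix} (h : lt S i j) : ¬ lt S j i :=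
  fun h' => lt_irrefl' (lt_trans' h h')

theorem rr_ne (S : ℕ → Bool) (q : ℚ) (x : Σ n : ℕ, Fin (n + 2)) : rr S (.inl q) ≠ rr S (.inr x) := by
  intro h
  change (q : ℝ) = √2 + ((Nat.pair x.1 (if S x.1 = true then 0 else x.2.1) : ℕ) : ℝ) at h
  refine irrational_sqrt_two.ne_rat (q - (Nat.pair x.1 (if S x.1 = true then 0 else x.2.1) : ℕ)) ?_
  push_cast
  linarith

theorem rr_inr {S : ℕ → Bool} {x x' : Σ n : ℕ, Fin (n + 2)} (h : rr S (.inr x) = rr S (.inr x')) :
    x.1 = x'.1 ∧ (S x.1 = true ∨ x.2.1 = x'.2.1) := by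
  change √2 + ((Nat.pair x.1 (if S x.1 = true then 0 else x.2.1) : ℕ) : ℝ) =
    √2 + ((Nat.pair x'.1 (if S x'.1 = true then 0 else x'.2.1) : ℕ) : ℝ) at h
  have h1 : Nat.pair x.1 (if S x.1 = true then 0 else x.2.1) =
      Nat.pair x'.1 (if S x'.1 = true then 0 else x'.2.1) := by
    exact_mod_cast add_left_cancel h
  have h2 := congrArg Nat.unpair h1
  rw [Nat.unpair_pair, Nat.unpair_pair] at h2
  have h3 : x.1 = x'.1 := congrArg Prod.fst h2
  refine ⟨h3, ?_⟩
  by_cases hS : S x.1 = true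
  · exact Or.inl hS
  · right
    have h4 : (if S x.1 = true then 0 else x.2.1) = (if S x'.1 = true then 0 else x'.2.1) :=
      congrArg Prod.snd h2
    have hS' : ¬ S x'.1 = true := by
      rw [← h3]
      exact hS
    rw [if_neg hS, if_neg hS'] at h4
    exact h4

theorem ext_ix {x x' : Σ n : ℕ, Fin (n + 2)} (h : x.1 = x'.1) (h2 : x.2.1 = x'.2.1) : x = x' := by
  obtain ⟨n, k⟩ := x
  obtain ⟨n', k'⟩ := x'
  obtain rfl : n = n' := h
  obtain rfl : k = k' := Fin.ext h2
  rfl

theorem lt_tot (S : ℕ → Bool) {i j : Ix} (h : i ≠ j) : lt S i j ∨ lt S j i := by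
  rcases lt_trichotomy (rr S i) (rr S j) with h1 | h1 | h1
  · exact Or.inl (Or.inl h1)
  · rcases lt_trichotomy (tt i) (tt j) with h2 | h2 | h2
    · exact Or.inl (Or.inr ⟨h1, h2⟩)
    · exfalso
      apply h
      rcases i with q | x <;> rcases j with q' | x'
      · have h3 : (q : ℝ) = q' := h1
        rw [Rat.cast_injective h3]
      · exact absurd h1 (rr_ne S q x')
      · exact absurd h1.symm (rr_ne S q' x)
      · rw [ext_ix (rr_inr h1).1 h2]
    · exact Or.inr (Or.inr ⟨h1.symm, h2⟩)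
  · exact Or.inr (Or.inl h1)

/-- the points with the same position -/
def clu (S : ℕ → Bool) (i : Ix) : Set Ix := {j | rr S j = rr S i}

theorem clu_inl (S : ℕ → Bool) (q : ℚ) : clu S (.inl q) = {.inl q} := by
  ext j
  constructor
  · intro h
    have h' : rr S j = rr S (.inl q) := h
    rcases j with q' | x
    · have h3 : (q' : ℝ) = q := h'
      rw [Rat.cast_injective h3]
      rfl
    · exact absurd h'.symm (rr_ne S q x)
  · rintro rfl
    rfl

theorem clu_false {S : ℕ → Bool} {x : Σ n : ℕ, Fin (n + 2)} (h : ¬ S x.1 = true) :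
    clu S (.inr x) = {.inr x} := by
  ext j
  constructor
  · intro h1
    have h' : rr S j = rr S (.inr x) := h1
    rcases j with q' | x'
    · exact absurd h' (rr_ne S q' x)
    · have h3 := rr_inr h'
      have h4 : x' = x := by
        refine ext_ix h3.1 (h3.2.resolve_left ?_)
        rw [h3.1]
        exact h
      rw [h4]
      rfl
  · rintro rfl
    rfl

theorem clu_true {S : ℕ → Bool} {x : Σ n : ℕ, Fin (n + 2)} (h : S x.1 = true) :
    clu S (.inr x) = (fun k : Fin (x.1 + 2) => (.inr ⟨x.1, k⟩ : Ix)) '' Set.univ := by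
  ext j
  constructor
  · intro h1
    have h' : rr S j = rr S (.inr x) := h1
    rcases j with q' | x'
    · exact absurd h' (rr_ne S q' x)
    · have h3 := (rr_inr h').1
      obtain ⟨n', k'⟩ := x'
      obtain rfl : n' = x.1 := h3
      exact ⟨k', Set.mem_univ _, rfl⟩
  · rintro ⟨k, _, rfl⟩
    change √2 + ((Nat.pair x.1 (if S x.1 = true then 0 else k.1) : ℕ) : ℝ) =
      √2 + ((Nat.pair x.1 (if S x.1 = true then 0 else x.2.1) : ℕ) : ℝ)
    rw [if_pos h, if_pos h]

theorem clu_finite (S : ℕ → Bool) (i : Ix) : (clu S i).Finite := by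
  rcases i with q | x
  · rw [clu_inl]
    exact Set.finite_singleton _
  · by_cases h : S x.1 = true
    · rw [clu_true h]
      exact Set.finite_univ.image _
    · rw [clu_false h]
      exact Set.finite_singleton _

theorem clu_ncard {S : ℕ → Bool} {i : Ix} {n : ℕ} (h : (clu S i).ncard = n + 2) :
    S n = true := by
  rcases i with q | x
  · rw [clu_inl, Set.ncard_singleton] at h
    omega
  · by_cases h1 : S x.1 = true
    · rw [clu_true h1, Set.ncard_image_of_injective, Set.ncard_univ, Nat.card_fin] at h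
      · have h2 : x.1 = n := by omega
        rw [← h2]
        exact h1
      · intro k k' hk
        simpa using hk
    · rw [clu_false h1, Set.ncard_singleton] at h
      omega

theorem clu_ncard' {S : ℕ → Bool} {n : ℕ} (h : S n = true) :
    (clu S (.inr ⟨n, 0⟩)).ncard = n + 2 := by
  rw [clu_true h, Set.ncard_image_of_injective, Set.ncard_univ, Nat.card_fin]
  intro k k' hk
  simpa using hk

theorem inf_gt (S : ℕ → Bool) (i : Ix) : {l : Ix | lt S i l}.Infinite := by
  have h1 : (Sum.inl '' {q : ℚ | rr S i < q} : Set Ix).Infinite := by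
    refine Set.Infinite.image Sum.inl_injective.injOn ?_
    obtain ⟨q, hq⟩ := exists_rat_gt (rr S i)
    refine (Set.Ioi_infinite q).mono fun q' hq' => ?_
    have h2 : (q : ℝ) < q' := by exact_mod_cast hq'
    exact hq.trans h2
  refine h1.mono ?_
  rintro _ ⟨q, hq, rfl⟩
  exact Or.inl hq

theorem inf_lt (S : ℕ → Bool) (i : Ix) : {l : Ix | lt S l i}.Infinite := by
  have h1 : (Sum.inl '' {q : ℚ | (q : ℝ) < rr S i} : Set Ix).Infinite := by
    refine Set.Infinite.image Sum.inl_injective.injOn ?_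
    obtain ⟨q, hq⟩ := exists_rat_lt (rr S i)
    refine (Set.Iio_infinite q).mono fun q' hq' => ?_
    have h2 : (q' : ℝ) < q := by exact_mod_cast hq'
    exact lt_trans h2 hq
  refine h1.mono ?_
  rintro _ ⟨q, hq, rfl⟩
  exact Or.inl hq

theorem inf_btw {S : ℕ → Bool} {i j : Ix} (h : rr S i < rr S j) :
    {l : Ix | lt S i l ∧ lt S l j}.Infinite := by
  obtain ⟨q1, h1, h2⟩ := exists_rat_btwn h
  obtain ⟨q2, h3, h4⟩ := exists_rat_btwn h2
  have h5 : (Sum.inl '' (Set.Ioo q1 q2) : Set Ix).Infinite := by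
    refine Set.Infinite.image Sum.inl_injective.injOn (Set.Ioo_infinite ?_)
    exact_mod_cast h3
  refine h5.mono ?_
  rintro _ ⟨q, ⟨g1, g2⟩, rfl⟩
  have g1' : (q1 : ℝ) < q := by exact_mod_cast g1
  have g2' : (q : ℝ) < q2 := by exact_mod_cast g2
  exact ⟨Or.inl (h1.trans g1'), Or.inl (g2'.trans h4)⟩

section Blow

variable (K : Cls D ι) (O : ℕ → Set D) (y : ℕ → ℕ → D) (ζ : D → D × D) (S : ℕ → Bool)

/-- the elements of the blow-up -/
abbrev BlO : Type := {v : ℕ × Ix // NKO K O (y v.1 v.1) ∨ v.2 = Sum.inl 0}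

open Classical in
/-- the blow-up -/
noncomputable def BnO (u v : BlO K O y) : D :=
  if u.1.1 = v.1.1 then
    (if u.1.2 = v.1.2 then y u.1.1 u.1.1 else
      if lt S u.1.2 v.1.2 then (ζ (y u.1.1 u.1.1)).1 else (ζ (y u.1.1 u.1.1)).2)
  else y u.1.1 v.1.1

/-- a good choice of labels -/
def Good : Prop := ∀ p, NKO K O p → (p, p, ζ p) ∈ K.L ∧ (ζ p).1 ∈ O 0 ∧
  ∀ k, ¬ ((ζ p).1 ∈ O k ∧ (ζ p).2 ∈ O k)

variable {K O y ζ S}

theorem bo_self (u : BlO K O y) : BnO K O y ζ S u u = y u.1.1 u.1.1 := by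
  unfold BnO
  rw [if_pos rfl, if_pos rfl]

theorem bo_lt {u v : BlO K O y} (h : u.1.1 = v.1.1) (h2 : lt S u.1.2 v.1.2) :
    BnO K O y ζ S u v = (ζ (y u.1.1 u.1.1)).1 := by
  unfold BnO
  rw [if_pos h, if_neg, if_pos h2]
  intro e
  rw [e] at h2
  exact lt_irrefl' h2

theorem bo_gt {u v : BlO K O y} (h : u.1.1 = v.1.1) (h2 : lt S v.1.2 u.1.2) :
    BnO K O y ζ S u v = (ζ (y u.1.1 u.1.1)).2 := by
  unfold BnO
  rw [if_pos h, if_neg, if_neg (lt_asymm' h2)]
  intro e
  rw [e] at h2
  exact lt_irrefl' h2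

theorem bo_ne {u v : BlO K O y} (h : u.1.1 ≠ v.1.1) :
    BnO K O y ζ S u v = y u.1.1 v.1.1 := by
  unfold BnO
  rw [if_neg h]

theorem bo_ext {u v : BlO K O y} (h : u.1.1 = v.1.1) (h2 : u.1.2 = v.1.2) : u = v :=
  Subtype.ext (Prod.ext h h2)

theorem nk_of {u v : BlO K O y} (h : u.1.1 = v.1.1) (h2 : u ≠ v) : NKO K O (y u.1.1 u.1.1) := by
  rcases u.2 with h3 | h3
  · exact h3
  · rcases v.2 with h4 | h4
    · rw [h]
      exact h4
    · exact absurd (bo_ext h (h3.trans h4.symm)) h2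

theorem ta_lt {u v : BlO K O y} (h : u.1.1 = v.1.1) (h2 : lt S u.1.2 v.1.2) :
    ta (BnO K O y ζ S) u v = ζ (y u.1.1 u.1.1) := by
  unfold ta
  rw [bo_lt h h2, bo_gt h.symm h2, h]

theorem mem_bo (hy : Mem K y) (hζ : Good K O ζ) : Mem K (BnO K O y ζ S) := by
  refine ⟨fun a => ?_, fun u v huv => ?_, fun i u hu => ?_⟩
  · rw [bo_self]
    exact hy.diag _
  · rw [bo_self, bo_self]
    by_cases h : u.1.1 = v.1.1
    · have h2 : u.1.2 ≠ v.1.2 := fun h2 => huv (bo_ext h h2)
      have hnk := nk_of h huv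
      rcases lt_tot S h2 with h3 | h3
      · rw [ta_lt h h3, ← h]
        exact (hζ _ hnk).1
      · rw [← ta_swap, ta_lt h.symm h3, ← h]
        exact K.sym _ _ _ (hζ _ hnk).1
    · have h1 : ta (BnO K O y ζ S) u v = ta y u.1.1 v.1.1 := by
        unfold ta
        rw [bo_ne h, bo_ne (fun e => h e.symm)]
      rw [h1]
      exact hy.pair _ _ h
  · rw [bo_self] at hu
    obtain ⟨b, hb, hb'⟩ := hy.dem i _ hu
    refine ⟨⟨(b, Sum.inl 0), Or.inr rfl⟩, fun e => hb ?_, ?_⟩
    · rw [← e]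
    · have h1 : ta (BnO K O y ζ S) u ⟨(b, Sum.inl 0), Or.inr rfl⟩ = ta y u.1.1 b := by
        unfold ta
        rw [bo_ne (fun e => hb e.symm), bo_ne hb]
      rw [h1]
      exact hb'

theorem ord_asymm {V : Type} {N : V → V → D} (h : Ord O N) {k : ℕ} {a b : V}
    (h1 : N a b ∈ O k) (h2 : N b a ∈ O k) : False := h.irr k a (h.tr k a b a h1 h2)

theorem ord_bo (hy : Ord O y) (hζ : Good K O ζ) : Ord O (BnO K O y ζ S) := by
  refine ⟨fun k a => ?_, fun k u v w h1 h2 => ?_, fun u v huv => ?_⟩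
  · rw [bo_self]
    exact hy.irr k _
  · by_cases e1 : u.1.1 = v.1.1
    · by_cases e2 : v.1.1 = w.1.1
      · by_cases huv : u.1.2 = v.1.2
        · rw [bo_ext e1 huv]
          exact h2
        by_cases hvw : v.1.2 = w.1.2
        · rw [← bo_ext e2 hvw]
          exact h1
        have hnk := nk_of e1 (fun e => huv (by rw [e]))
        have hz := (hζ _ hnk).2.2 k
        rcases lt_tot S huv with g1 | g1
        · rw [bo_lt e1 g1] at h1
          rcases lt_tot S hvw with g2 | g2
          · rw [bo_lt (e1.trans e2) (lt_trans' g1 g2)]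
            exact h1
          · rw [bo_gt e2 g2, ← e1] at h2
            exact absurd ⟨h1, h2⟩ hz
        · rw [bo_gt e1 g1] at h1
          rcases lt_tot S hvw with g2 | g2
          · rw [bo_lt e2 g2, ← e1] at h2
            exact absurd ⟨h2, h1⟩ hz
          · rw [bo_gt (e1.trans e2) (lt_trans' g2 g1)]
            exact h1
      · rw [bo_ne (fun e => e2 (e1.symm.trans e)), e1]
        rw [bo_ne e2] at h2
        exact h2
    · rw [bo_ne e1] at h1
      by_cases e2 : v.1.1 = w.1.1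
      · rw [bo_ne (fun e => e1 (e.trans e2.symm)), ← e2]
        exact h1
      · rw [bo_ne e2] at h2
        by_cases e3 : u.1.1 = w.1.1
        · rw [← e3] at h2
          exact (ord_asymm hy h1 h2).elim
        · rw [bo_ne e3]
          exact hy.tr k _ _ _ h1 h2
  · by_cases e1 : u.1.1 = v.1.1
    · have h2 : u.1.2 ≠ v.1.2 := fun h2 => huv (bo_ext e1 h2)
      have hnk := nk_of e1 huv
      have hz := (hζ _ hnk).2.1
      rcases lt_tot S h2 with g1 | g1
      · left
        rw [bo_lt e1 g1]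
        exact hz
      · right
        rw [bo_lt e1.symm g1, ← e1]
        exact hz
    · rw [bo_ne e1, bo_ne (fun e => e1 e.symm)]
      exact hy.tot _ _ e1

end Blow

/-- the elements between two elements -/
def btw {V : Type} (O : ℕ → Set D) (N : V → V → D) (u v : V) : Set V :=
  {w | (N u w ∈ O 0 ∧ N w v ∈ O 0) ∨ (N v w ∈ O 0 ∧ N w u ∈ O 0)}

/-- the elements at finite distance with the same label -/
def near {V : Type} (O : ℕ → Set D) (N : V → V → D) (u : V) : Set V :=
  {v | N v v = N u u ∧ (btw O N u v).Finite}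

theorem near_congr {V V' : Type} {O : ℕ → Set D} {N : V → V → D} {N' : V' → V' → D} (g : V ≃ V')
    (hg : ∀ a b, N' (g a) (g b) = N a b) (n : ℕ) :
    (∃ u, (near O N u).ncard = n) → ∃ u, (near O N' u).ncard = n := by
  rintro ⟨u, hu⟩
  refine ⟨g u, ?_⟩
  rw [← hu]
  have h0 : ∀ v, btw O N' (g u) (g v) = g '' btw O N u v := by
    intro v
    ext w
    constructor
    · intro hw
      refine ⟨g.symm w, ?_, g.apply_symm_apply w⟩
      change _ ∨ _
      rw [← hg, ← hg, ← hg, ← hg, g.apply_symm_apply]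
      exact hw
    · rintro ⟨w, hw, rfl⟩
      change _ ∨ _
      rw [hg, hg, hg, hg]
      exact hw
  have h1 : near O N' (g u) = g '' near O N u := by
    ext v
    constructor
    · rintro ⟨h1, h2⟩
      refine ⟨g.symm v, ⟨?_, ?_⟩, g.apply_symm_apply v⟩
      · rw [← hg, g.apply_symm_apply, h1, hg]
      · have h3 := h0 (g.symm v)
        rw [g.apply_symm_apply] at h3
        rw [h3] at h2
        exact h2.of_finite_image g.injective.injOn
    · rintro ⟨v, ⟨h1, h2⟩, rfl⟩
      refine ⟨by rw [hg, hg, h1], ?_⟩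
      rw [h0]
      exact h2.image _
  rw [h1, Set.ncard_image_of_injective _ g.injective]

section Rec

variable {K : Cls D ι} {O : ℕ → Set D} {y : ℕ → ℕ → D} {ζ : D → D × D} {S : ℕ → Bool}

theorem bo_iff (hy : Ord O y) (hζ : Good K O ζ) {u v : BlO K O y} (h : u.1.1 = v.1.1) :
    BnO K O y ζ S u v ∈ O 0 ↔ lt S u.1.2 v.1.2 := by
  constructor
  · intro h1
    by_contra h2
    by_cases h3 : u.1.2 = v.1.2
    · rw [bo_ext h h3] at h1
      exact (ord_bo hy hζ).irr 0 _ h1
    · have h4 := (lt_tot S h3).resolve_left h2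
      have hnk := nk_of h (fun e => h3 (by rw [e]))
      rw [bo_gt h h4] at h1
      exact (hζ _ hnk).2.2 0 ⟨(hζ _ hnk).2.1, h1⟩
  · intro h1
    rw [bo_lt h h1]
    refine (hζ _ (nk_of h fun e => ?_)).2.1
    rw [e] at h1
    exact lt_irrefl' h1

theorem near_eq (hy : Mem K y) (ho : Ord O y) (hζ : Good K O ζ) (u : BlO K O y) :
    near O (BnO K O y ζ S) u = {v | v.1.1 = u.1.1 ∧ v.1.2 ∈ clu S u.1.2} := by
  have hO := ord_bo (S := S) ho hζ
  ext v
  constructor
  · rintro ⟨h1, h2⟩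
    rw [bo_self, bo_self] at h1
    by_cases e : v.1.1 = u.1.1
    · refine ⟨e, ?_⟩
      change rr S v.1.2 = rr S u.1.2
      by_contra h3
      have h4 : v.1.2 ≠ u.1.2 := fun h4 => h3 (by rw [h4])
      have hnk := nk_of e (fun h5 => h4 (by rw [h5]))
      rw [e] at hnk
      have hinj : Function.Injective fun l : Ix => (⟨(u.1.1, l), Or.inl hnk⟩ : BlO K O y) := by
        intro l l' hl
        exact congrArg (fun v : BlO K O y => v.1.2) hl
      rcases lt_or_gt_of_ne h3 with h5 | h5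
      · refine ((inf_btw h5).image hinj.injOn).mono ?_ h2
        rintro _ ⟨l, ⟨g1, g2⟩, rfl⟩
        exact Or.inr ⟨(bo_iff ho hζ (u := v) (v := ⟨(u.1.1, l), Or.inl hnk⟩) e).2 g1,
          (bo_iff ho hζ (u := ⟨(u.1.1, l), Or.inl hnk⟩) (v := u) rfl).2 g2⟩
      · refine ((inf_btw h5).image hinj.injOn).mono ?_ h2
        rintro _ ⟨l, ⟨g1, g2⟩, rfl⟩
        exact Or.inl ⟨(bo_iff ho hζ (u := u) (v := ⟨(u.1.1, l), Or.inl hnk⟩) rfl).2 g1,
          (bo_iff ho hζ (u := ⟨(u.1.1, l), Or.inl hnk⟩) (v := v) e.symm).2 g2⟩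
    · exfalso
      have hnk : NKO K O (y u.1.1 u.1.1) := by
        rcases ho.tot _ _ e with h3 | h3
        · have h4 := hy.pair _ _ e
          rw [h1] at h4
          exact ⟨_, h4, h3, fun k hk => ord_asymm ho hk.1 hk.2⟩
        · have h4 := hy.pair _ _ (Ne.symm e)
          rw [h1] at h4
          exact ⟨_, h4, h3, fun k hk => ord_asymm ho hk.1 hk.2⟩
      have hinj : Function.Injective fun l : Ix => (⟨(u.1.1, l), Or.inl hnk⟩ : BlO K O y) := by
        intro l l' hl
        exact congrArg (fun v : BlO K O y => v.1.2) hl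
      rcases ho.tot _ _ e with h3 | h3
      · refine ((inf_lt S u.1.2).image hinj.injOn).mono ?_ h2
        rintro _ ⟨l, hl, rfl⟩
        refine Or.inr ⟨?_, (bo_iff ho hζ (u := ⟨(u.1.1, l), Or.inl hnk⟩) (v := u) rfl).2 hl⟩
        have h5 := bo_ne (ζ := ζ) (S := S) (u := v)
          (v := (⟨(u.1.1, l), Or.inl hnk⟩ : BlO K O y)) e
        change BnO K O y ζ S v ⟨(u.1.1, l), Or.inl hnk⟩ ∈ O 0
        rw [h5]
        exact h3
      · refine ((inf_gt S u.1.2).image hinj.injOn).mono ?_ h2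
        rintro _ ⟨l, hl, rfl⟩
        refine Or.inl ⟨(bo_iff ho hζ (u := u) (v := ⟨(u.1.1, l), Or.inl hnk⟩) rfl).2 hl, ?_⟩
        have h5 := bo_ne (ζ := ζ) (S := S) (u := (⟨(u.1.1, l), Or.inl hnk⟩ : BlO K O y))
          (v := v) (fun h => e h.symm)
        change BnO K O y ζ S ⟨(u.1.1, l), Or.inl hnk⟩ v ∈ O 0
        rw [h5]
        exact h3
  · rintro ⟨e, h1⟩
    refine ⟨by rw [bo_self, bo_self, e], ?_⟩
    have h2 : (Subtype.val '' btw O (BnO K O y ζ S) u v).Finite := by
      refine ((Set.finite_singleton u.1.1).prod (clu_finite S u.1.2)).subset ?_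
      have h3 : rr S v.1.2 = rr S u.1.2 := h1
      have hle : ∀ {i j : Ix}, lt S i j → rr S i ≤ rr S j := by
        intro i j h
        rcases h with h | h
        · exact h.le
        · exact h.1.le
      rintro _ ⟨w, hw, rfl⟩
      have hwu : w.1.1 = u.1.1 := by
        by_contra h4
        rcases hw with ⟨g1, g2⟩ | ⟨g1, g2⟩
        · rw [bo_ne (fun h => h4 h.symm)] at g1
          rw [bo_ne (fun h => h4 (h.trans e)), e] at g2
          exact ord_asymm ho g1 g2
        · rw [bo_ne (fun h => h4 (h.symm.trans e)), e] at g1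
          rw [bo_ne h4] at g2
          exact ord_asymm ho g1 g2
      refine ⟨hwu, ?_⟩
      change rr S w.1.2 = rr S u.1.2
      rcases hw with ⟨g1, g2⟩ | ⟨g1, g2⟩
      · have k1 := hle ((bo_iff ho hζ hwu.symm).1 g1)
        have k2 := hle ((bo_iff ho hζ (hwu.trans e.symm)).1 g2)
        exact le_antisymm (k2.trans h3.le) k1
      · have k1 := hle ((bo_iff ho hζ (e.trans hwu.symm)).1 g1)
        have k2 := hle ((bo_iff ho hζ hwu).1 g2)
        exact le_antisymm k2 (h3.symm.le.trans k1)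
    exact h2.of_finite_image Subtype.val_injective.injOn

theorem near_iff (hy : Mem K y) (ho : Ord O y) (hζ : Good K O ζ) {a : ℕ}
    (ha : NKO K O (y a a)) (n : ℕ) :
    S n = true ↔ ∃ u, (near O (BnO K O y ζ S) u).ncard = n + 2 := by
  constructor
  · intro h
    refine ⟨⟨(a, .inr ⟨n, 0⟩), Or.inl ha⟩, ?_⟩
    rw [near_eq hy ho hζ]
    refine Eq.trans ?_ (clu_ncard' h)
    have hinj : Function.Injective fun l : Ix => (⟨(a, l), Or.inl ha⟩ : BlO K O y) := by
      intro l l' hl
      exact congrArg (fun v : BlO K O y => v.1.2) hl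
    rw [← Set.ncard_image_of_injective _ hinj]
    congr 1
    ext v
    constructor
    · rintro ⟨h1, h2⟩
      exact ⟨v.1.2, h2, bo_ext h1.symm rfl⟩
    · rintro ⟨l, hl, rfl⟩
      exact ⟨rfl, hl⟩
  · rintro ⟨u, hu⟩
    rw [near_eq hy ho hζ] at hu
    by_cases hnk : NKO K O (y u.1.1 u.1.1)
    · apply clu_ncard (i := u.1.2)
      rw [← hu]
      have hinj : Function.Injective fun l : Ix => (⟨(u.1.1, l), Or.inl hnk⟩ : BlO K O y) := by
        intro l l' hl
        exact congrArg (fun v : BlO K O y => v.1.2) hl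
      rw [← Set.ncard_image_of_injective _ hinj]
      congr 1
      ext v
      constructor
      · rintro ⟨l, hl, rfl⟩
        exact ⟨rfl, hl⟩
      · rintro ⟨h1, h2⟩
        exact ⟨v.1.2, h2, bo_ext h1.symm rfl⟩
    · exfalso
      have h1 : {v : BlO K O y | v.1.1 = u.1.1 ∧ v.1.2 ∈ clu S u.1.2} ⊆ {u} := by
        rintro v ⟨h1, _⟩
        by_contra h2
        have h3 := nk_of h1 h2
        rw [h1] at h3
        exact hnk h3
      have h2 := Set.ncard_le_ncard h1
      rw [Set.ncard_singleton] at h2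
      omega

theorem exists_equivO (K : Cls D ι) (O : ℕ → Set D) (y : ℕ → ℕ → D) :
    Nonempty (BlO K O y ≃ ℕ) := by
  have h1 : Infinite (BlO K O y) :=
    Infinite.of_injective (fun a : ℕ => (⟨(a, .inl 0), Or.inr rfl⟩ : BlO K O y)) fun a b h =>
      congrArg (fun v : BlO K O y => v.1.1) h
  exact nonempty_equiv_of_countable

theorem Ord.congr {V V' : Type} {N : V → V → D} {N' : V' → V' → D} (h : Ord O N) (g : V ≃ V')
    (hg : ∀ a b, N' (g a) (g b) = N a b) : Ord O N' := by
  have hg' : ∀ a b, N' a b = N (g.symm a) (g.symm b) := by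
    intro a b
    rw [← hg, Equiv.apply_symm_apply, Equiv.apply_symm_apply]
  refine ⟨fun k a => ?_, fun k a b c => ?_, fun a b hab => ?_⟩
  · rw [hg']
    exact h.irr k _
  · rw [hg', hg', hg']
    exact h.tr k _ _ _
  · rw [hg', hg']
    exact h.tot _ _ fun e => hab (g.symm.injective e)

theorem meas_lt (i j : Ix) : MeasurableSet {S : ℕ → Bool | lt S i j} := by
  have hr : ∀ i : Ix, Measurable fun S : ℕ → Bool => rr S i := by
    intro i
    rcases i with q | x
    · exact measurable_const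
    · have h1 : MeasurableSet {S : ℕ → Bool | S x.1 = true} :=
        measurable_pi_apply (X := fun _ : ℕ => Bool) x.1 (measurableSet_singleton true)
      have h2 : (fun S : ℕ → Bool => rr S (.inr x)) = fun S : ℕ → Bool =>
          if S x.1 = true then √2 + ((Nat.pair x.1 0 : ℕ) : ℝ) else
            √2 + ((Nat.pair x.1 x.2.1 : ℕ) : ℝ) := by
        funext S
        change √2 + ((Nat.pair x.1 (if S x.1 = true then 0 else x.2.1) : ℕ) : ℝ) = _
        split_ifs <;> rfl
      rw [h2]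
      exact Measurable.ite h1 measurable_const measurable_const
  exact (measurableSet_lt (hr i) (hr j)).union
    ((measurableSet_eq_fun (hr i) (hr j)).inter (MeasurableSet.const _))

/-- perfectly many isomorphism types, from an element with a label which may be repeated -/
theorem perfectO [MeasurableSpace D] (hy : Mem K y) (ho : Ord O y) {a : ℕ}
    (ha : NKO K O (y a a)) :
    ∃ F : (ℕ → Bool) → ℕ → ℕ → D, Measurable F ∧ (∀ S, Mem K (F S) ∧ Ord O (F S)) ∧
      ∀ S S', Iso (F S) (F S') → S = S' := by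
  classical
  have hc : ∃ ζ : D → D × D, Good K O ζ := by
    refine ⟨fun p => if h : NKO K O p then h.choose else (p, p), fun p h => ?_⟩
    change (p, p, dite _ _ _) ∈ K.L ∧ (dite _ _ _ : D × D).1 ∈ O 0 ∧
      ∀ k, ¬ ((dite _ _ _ : D × D).1 ∈ O k ∧ (dite _ _ _ : D × D).2 ∈ O k)
    rw [dif_pos h]
    exact h.choose_spec
  obtain ⟨ζ, hζ⟩ := hc
  obtain ⟨e⟩ := exists_equivO K O y
  refine ⟨fun S i j => BnO K O y ζ S (e.symm i) (e.symm j), ?_, fun S => ⟨?_, ?_⟩, ?_⟩
  · refine measurable_pi_lambda _ fun i => measurable_pi_lambda _ fun j => ?_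
    unfold BnO
    split_ifs with h1 h2
    · exact measurable_const
    · exact Measurable.ite (meas_lt _ _) measurable_const measurable_const
    · exact measurable_const
  · refine Mem.congr (mem_bo (S := S) hy hζ) e fun u v => ?_
    simp only [Equiv.symm_apply_apply]
  · refine Ord.congr (ord_bo (S := S) ho hζ) e fun u v => ?_
    simp only [Equiv.symm_apply_apply]
  · rintro S S' ⟨g, hg⟩
    have hg' : ∀ u v, BnO K O y ζ S' ((e.trans (g.trans e.symm)) u)
        ((e.trans (g.trans e.symm)) v) = BnO K O y ζ S u v := by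
      intro u v
      have h1 := hg (e u) (e v)
      simp only [Equiv.symm_apply_apply] at h1
      exact h1
    have hg'' : ∀ u v, BnO K O y ζ S ((e.trans (g.trans e.symm)).symm u)
        ((e.trans (g.trans e.symm)).symm v) = BnO K O y ζ S' u v := by
      intro u v
      rw [← hg', Equiv.apply_symm_apply, Equiv.apply_symm_apply]
    have h2 : ∀ n, S n = true ↔ S' n = true := by
      intro n
      rw [near_iff (S := S) hy ho hζ ha n, near_iff (S := S') hy ho hζ ha n]
      exact ⟨near_congr _ hg' _, near_congr _ hg'' _⟩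
    funext n
    exact Bool.eq_iff_iff.2 (h2 n)

/-- the dichotomy for ordered structures -/
theorem dichO [MeasurableSpace D] [StandardBorelSpace D] [Countable ι] (hK : K.Meas)
    (hO : ∀ k, MeasurableSet (O k)) :
    (∃ D' : Set (ℕ → ℕ → D), D'.Countable ∧
      ∀ y : ℕ → ℕ → D, Mem K y → Ord O y → ∃ d ∈ D', Iso y d) ∨
      ∃ F : (ℕ → Bool) → ℕ → ℕ → D, Measurable F ∧ (∀ S, Mem K (F S) ∧ Ord O (F S)) ∧
        ∀ S S', Iso (F S) (F S') → S = S' := by
  by_cases hT : ∃ y : ℕ → ℕ → D, Mem K y ∧ Ord O y ∧ ∃ a, NKO K O (y a a)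
  · right
    obtain ⟨y, hy, ho, a, ha⟩ := hT
    exact perfectO hy ho ha
  have hX : MeasurableSet {y : ℕ → ℕ → D | Mem K y ∧ Ord O y} := by
    refine (meas_mem hK).inter ?_
    have h1 : ∀ i j, Measurable fun y : ℕ → ℕ → D => y i j := fun i j =>
      (measurable_pi_apply j).comp (measurable_pi_apply i)
    have h2 : {y : ℕ → ℕ → D | Ord O y} = {y | (∀ k a, y a a ∉ O k) ∧
        (∀ k a b c, y a b ∈ O k → y b c ∈ O k → y a c ∈ O k) ∧
        ∀ a b, a ≠ b → y a b ∈ O 0 ∨ y b a ∈ O 0} := by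
      ext y
      exact ⟨fun h => ⟨h.irr, h.tr, h.tot⟩, fun h => ⟨h.1, h.2.1, h.2.2⟩⟩
    have h3 : ∀ i j k, Measurable fun y : ℕ → ℕ → D => y i j ∈ O k := fun i j k =>
      measurableSet_setOfPred.1 (h1 i j (hO k))
    change MeasurableSet {y : ℕ → ℕ → D | Ord O y}
    rw [h2, measurableSet_setOfPred]
    refine (Measurable.forall fun k => Measurable.forall fun a => (h3 a a k).not).and
      ((Measurable.forall fun k => Measurable.forall fun a => Measurable.forall fun b =>
        Measurable.forall fun c => (h3 a b k).imp ((h3 b c k).imp (h3 a c k))).and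
      (Measurable.forall fun a => Measurable.forall fun b => measurable_const.imp
        ((h3 a b 0).or (h3 b a 0))))
  have hkg : ∀ y : ℕ → ℕ → D, Mem K y → Ord O y → ∀ a, Kg y a := by
    intro y hy ho a a' ha' h1
    apply hT
    refine ⟨y, hy, ho, a, ?_⟩
    rcases ho.tot _ _ ha' with h3 | h3
    · have h4 := hy.pair _ _ ha'
      rw [h1] at h4
      exact ⟨_, h4, h3, fun k hk => ord_asymm ho hk.1 hk.2⟩
    · have h4 := hy.pair _ _ (Ne.symm ha')
      rw [h1] at h4
      exact ⟨_, h4, h3, fun k hk => ord_asymm ho hk.1 hk.2⟩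
  rcases dich_thin hX (fun y hy y' hy' => ⟨iso_cnt, iso_of_cnt
    fun a b a' b' _ _ ha _ _ _ => absurd (hkg y hy.1 hy.2 a) ha⟩) with ⟨D', hD', h⟩ | h
  · exact Or.inl ⟨D', hD', fun y hy ho => h y ⟨hy, ho⟩⟩
  · exact Or.inr h

end Rec

end Pool.Agent.H71.TV
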