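import Pool.Agent.H71.TV.F
import Pool.Agent.H71.TV.LO

/-!
# Vaught's conjecture for sentences with two variables and linearly ordered structures
-/

set_option autoImplicit false

open Set

namespace Pool.Agent.H71.TV

variable {C : Type} [MeasurableSpace C]

/-- the relations of `P` are strict partial orders, the first one is linear -/
def OrdS (P : ℕ → Set C) (x : (Fin 2 → ℕ) → C) : Prop :=
  (∀ k i, x ![i, i] ∉ P k) ∧
  (∀ k i j l, x ![i, j] ∈ P k → x ![j, l] ∈ P k → x ![i, l] ∈ P k) ∧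
  ∀ i j, i ≠ j → x ![i, j] ∈ P 0 ∨ x ![j, i] ∈ P 0

theorem ord_expa (T : Set (Formula C)) (P : ℕ → Set C) (x : (Fin 2 → ℕ) → C) :
    Ord (fun k => {s : DT T | s.1 ∈ P k}) (expa T x) ↔ OrdS P x :=
  ⟨fun h => ⟨h.irr, h.tr, h.tot⟩, fun h => ⟨h.1, h.2.1, h.2.2⟩⟩

/-- Vaught's conjecture for sentences with two variables and linearly ordered structures -/
theorem two_variables_ordered [StandardBorelSpace C] (φ : Formula C) (P : ℕ → Set C)
    (hP : ∀ k, MeasurableSet (P k)) :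
    (∃ D' : Set ((Fin 2 → ℕ) → C), D'.Countable ∧ ∀ x, (∀ v, Holds x φ v) → OrdS P x →
      ∃ d ∈ D', ∃ g : Equiv.Perm ℕ, ∀ v : Fin 2 → ℕ, d (g ∘ v) = x v) ∨
    ∃ F : (ℕ → Bool) → (Fin 2 → ℕ) → C, Measurable F ∧
      (∀ S, (∀ v, Holds (F S) φ v) ∧ OrdS P (F S)) ∧
      ∀ S S', (∃ g : Equiv.Perm ℕ, ∀ v : Fin 2 → ℕ, F S' (g ∘ v) = F S v) → S = S' := by
  have hT := subs_clo φ
  have hφ := self_mem φ
  have hc : Countable (subs φ) := (subs_countable φ).to_subtype
  have hO : ∀ k, MeasurableSet {s : DT (subs φ) | s.1 ∈ P k} := fun k => measurable_fst (hP k)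
  rcases dichO (O := fun k => {s : DT (subs φ) | s.1 ∈ P k}) (meas_KT (T := subs φ) φ) hO with
    ⟨D', hD', h⟩ | ⟨F, hF, hFK, hFi⟩
  · left
    refine ⟨red '' D', hD'.image _, fun x hx ho => ?_⟩
    obtain ⟨d, hd, hi⟩ := h _ (mem_expa hT hφ hx) ((ord_expa _ P x).2 ho)
    refine ⟨red d, ⟨d, hd, rfl⟩, ?_⟩
    have h1 := iso_red hi
    rw [red_expa] at h1
    exact h1
  · right
    refine ⟨fun S => red (F S), ?_, fun S => ⟨fun v => models_red hT hφ (hFK S).1 v, ?_⟩, ?_⟩
    · refine measurable_pi_lambda _ fun v => ?_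
      exact measurable_fst.comp ((measurable_pi_apply (v 1)).comp
        ((measurable_pi_apply (v 0)).comp hF))
    · rw [← ord_expa (subs φ), expa_red hT (hFK S).1]
      exact (hFK S).2
    · rintro S S' ⟨g, hg⟩
      apply hFi
      have h1 := iso_expa (T := subs φ) g hg
      rw [expa_red hT (hFK S).1, expa_red hT (hFK S').1] at h1
      exact h1

end Pool.Agent.H71.TV
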